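import Pool.Agent.T3h87.SS.Bc

/-!
# One null set for all finite extensions
-/

set_option autoImplicit false

namespace Pool.Agent.T3h87.SS

open NumberField MeasureTheory Filter

theorem countable_closure (K : Type) [Field K] [NumberField K] : Countable (AlgebraicClosure K) := by
  have h1 : Algebra.IsAlgebraic ℚ (AlgebraicClosure K) :=
    Algebra.IsAlgebraic.trans ℚ K (AlgebraicClosure K)
  have h2 : Set.Countable {x : AlgebraicClosure K | IsAlgebraic ℚ x} := Algebraic.countable ℚ _
  have h3 : {x : AlgebraicClosure K | IsAlgebraic ℚ x} = Set.univ :=
    Set.eq_univ_of_forall fun x => h1.isAlgebraic x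
  rw [h3] at h2
  exact Set.countable_univ_iff.1 h2

/-- almost surely, for all finite extensions `E` and all data in `T E` at the same time -/
theorem ae_all_fields {K : Type} [Field K] [NumberField K] {Ω : Type} [MeasurableSpace Ω] (P : Measure Ω)
    (T : ∀ (E : Type) [Field E], Type) (hT : ∀ (E : Type) [Field E], Countable E → Countable (T E))
    (G : ∀ (E : Type) [Field E] [Algebra K E], T E → ℕ → Ω → Prop)
    (hG : ∀ (E : Type) [Field E] [NumberField E] [Algebra K E] (t : T E), ∀ᵐ w ∂P, ∀ᶠ i in atTop, G E t i w) :
    ∀ᵐ w ∂P, ∀ E : IntermediateField K (AlgebraicClosure K), FiniteDimensional K E →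
      ∀ t : T E, ∀ᶠ i in atTop, G E t i w := by
  have := countable_closure K
  have h1 : ∀ S : Finset (AlgebraicClosure K), ∀ᵐ w ∂P,
      FiniteDimensional K (IntermediateField.adjoin K (S : Set (AlgebraicClosure K))) →
      ∀ t : T (IntermediateField.adjoin K (S : Set (AlgebraicClosure K))), ∀ᶠ i in atTop,
        G (IntermediateField.adjoin K (S : Set (AlgebraicClosure K))) t i w := by
    intro S
    by_cases hfd : FiniteDimensional K (IntermediateField.adjoin K (S : Set (AlgebraicClosure K)))
    · have hnf : NumberField (IntermediateField.adjoin K (S : Set (AlgebraicClosure K))) := by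
        have : CharZero (IntermediateField.adjoin K (S : Set (AlgebraicClosure K))) :=
          charZero_of_injective_algebraMap (algebraMap K _).injective
        have : FiniteDimensional ℚ (IntermediateField.adjoin K (S : Set (AlgebraicClosure K))) :=
          FiniteDimensional.trans ℚ K _
        exact ⟨⟩
      have hc : Countable (IntermediateField.adjoin K (S : Set (AlgebraicClosure K))) :=
        inferInstance
      have hcT := hT (IntermediateField.adjoin K (S : Set (AlgebraicClosure K))) hc
      have key2 := ae_all_iff.2 fun t : T (IntermediateField.adjoin K (S : Set (AlgebraicClosure K))) =>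
        hG (IntermediateField.adjoin K (S : Set (AlgebraicClosure K))) t
      filter_upwards [key2] with w hw _ t
      exact hw t
    · exact Eventually.of_forall fun w h => absurd h hfd
  filter_upwards [ae_all_iff.2 h1] with w hw E hE
  obtain ⟨S, hS⟩ : E.FG := by
    refine IntermediateField.fg_of_fg_toSubalgebra E ?_
    rw [Subalgebra.fg_iff_finiteType]
    have : FiniteDimensional K E.toSubalgebra := hE
    infer_instance
  subst hS
  intro t
  exact hw S hE t

end Pool.Agent.T3h87.SS
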