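import Pool.Agent.T3h87.LT.Real
import Pool.Agent.T3h87.LT.Sps

/-!
# A sieve for sparse families of vectors of integers

A vector whose coordinates are independent random members of sparse families passes a test for one of many primes, with a
probability which differs from one by a negative power of the sizes.
-/

set_option autoImplicit false

namespace Pool.Agent.T3h87.SS

open Finset Filter
open Pool.Agent.T3h87.LT (Fam Kind SysA poly_all meanD_zmod meanD_mono meanD_one)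
open Pool.Agent.R459.Eq (pri mem_pri)
open Pool.Agent.N794.CG (meanD meanD_eq)

/-- The set `U` contains a positive proportion of the primes. -/
def Dense (U : Set ℕ) : Prop :=
  ∃ c₀ : ℝ, 0 < c₀ ∧ ∀ᶠ N : ℕ in atTop, c₀ * (Nat.primeCounting N : ℝ) ≤ (Nat.card {l : ℕ // l ≤ N ∧ l.Prime ∧ l ∈ U} : ℝ)

lemma Dense.mono {U V : Set ℕ} (h : Dense U) (hUV : U ⊆ V) : Dense V := by
  obtain ⟨c₀, hc, h1⟩ := h
  refine ⟨c₀, hc, h1.mono fun N hN => hN.trans ?_⟩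
  have hfin : Finite {l : ℕ // l ≤ N ∧ l.Prime ∧ l ∈ V} := Set.Finite.subset (Set.finite_Iic N) fun l hl => hl.1
  have h2 : Nat.card {l : ℕ // l ≤ N ∧ l.Prime ∧ l ∈ U} ≤ Nat.card {l : ℕ // l ≤ N ∧ l.Prime ∧ l ∈ V} :=
    Nat.card_le_card_of_injective (fun l => ⟨l.1, l.2.1, l.2.2.1, hUV l.2.2.2⟩) fun a b hab => Subtype.ext (by simpa using hab)
  exact_mod_cast h2

/-- many primes -/
lemma dense_pow {U : Set ℕ} (hU : Dense U) (C : ℝ) : ∀ᶠ N : ℕ in atTop,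
    C * (N : ℝ) ^ (7 / 8 : ℝ) ≤ (Nat.card {l : ℕ // l ≤ N ∧ l.Prime ∧ l ∈ U} : ℝ) := by
  obtain ⟨c₀, hc, h1⟩ := hU
  have h2 : Tendsto (fun x : ℝ => x ^ (1 / 16 : ℝ)) atTop atTop := tendsto_rpow_atTop (by norm_num)
  have h3 := (isLittleO_log_rpow_atTop (show (0 : ℝ) < 1 / 16 by norm_num)).bound (show (0 : ℝ) < 1 by norm_num)
  have h4 : ∀ᶠ x : ℝ in atTop, max 4 (4 * |C| / c₀) ≤ x ^ (1 / 16 : ℝ) := h2.eventually (eventually_ge_atTop _)
  have h5 : ∀ᶠ N : ℕ in atTop, (4 * |C| / c₀) ≤ (N : ℝ) ^ (1 / 16 : ℝ) ∧ Real.log N ≤ (N : ℝ) ^ (1 / 16 : ℝ) ∧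
      Real.log (N + 1) ≤ 1 / 4 * N ∧ 4 ≤ N := by
    have h6 : ∀ᶠ N : ℕ in atTop, max 4 (4 * |C| / c₀) ≤ (N : ℝ) ^ (1 / 16 : ℝ) := tendsto_natCast_atTop_atTop.eventually h4
    have h7 : ∀ᶠ N : ℕ in atTop, ‖Real.log N‖ ≤ 1 * ‖(N : ℝ) ^ (1 / 16 : ℝ)‖ := tendsto_natCast_atTop_atTop.eventually h3
    have h8 : ∀ᶠ N : ℕ in atTop, ‖Real.log ((N : ℝ) + 1)‖ ≤ 1 * ‖((N : ℝ) + 1) ^ (1 / 16 : ℝ)‖ :=
      (tendsto_natCast_atTop_atTop.eventually ((tendsto_atTop_add_const_right atTop (1 : ℝ) tendsto_id).eventually h3))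
    filter_upwards [h6, h7, h8, eventually_ge_atTop 1000000] with N a1 a2 a3 a4
    have hN : (1000000 : ℝ) ≤ N := by exact_mod_cast a4
    have hN0 : (0 : ℝ) < N := by linarith
    rw [Real.norm_of_nonneg (Real.log_nonneg (by linarith)), Real.norm_of_nonneg (by positivity), one_mul] at a2
    rw [Real.norm_of_nonneg (Real.log_nonneg (by linarith)), Real.norm_of_nonneg (by positivity), one_mul] at a3
    refine ⟨(le_max_right _ _).trans a1, a2, a3.trans ?_, by omega⟩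
    have h9 : ((N : ℝ) + 1) ^ (1 / 16 : ℝ) ≤ ((N : ℝ) + 1) ^ (1 / 2 : ℝ) :=
      Real.rpow_le_rpow_of_exponent_le (by linarith) (by norm_num)
    refine h9.trans ?_
    rw [← Real.sqrt_eq_rpow, Real.sqrt_le_left (by linarith)]
    nlinarith
  filter_upwards [h1, h5] with N b1 b2
  obtain ⟨b3, b4, b5, b6⟩ := b2
  refine le_trans ?_ b1
  have hN : (4 : ℝ) ≤ N := by exact_mod_cast b6
  have hN0 : (0 : ℝ) < N := by linarith
  have hlog : 0 < Real.log N := Real.log_pos (by linarith)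
  have h7 : (N : ℝ) / 4 / (N : ℝ) ^ (1 / 16 : ℝ) ≤ Nat.primeCounting N := by
    have h8 := Chebyshev.pi_ge N
    have h9 : (N : ℝ) / 4 ≤ (N : ℝ) * Real.log 2 - Real.log (N + 1) := by
      have := Real.log_two_gt_d9
      nlinarith
    calc (N : ℝ) / 4 / (N : ℝ) ^ (1 / 16 : ℝ) ≤ (N : ℝ) / 4 / Real.log N := div_le_div_of_nonneg_left (by positivity) hlog b4
      _ ≤ ((N : ℝ) * Real.log 2 - Real.log (N + 1)) / Real.log N := div_le_div_of_nonneg_right h9 hlog.le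
      _ ≤ _ := h8
  have h8 : C * (N : ℝ) ^ (7 / 8 : ℝ) ≤ c₀ * ((N : ℝ) / 4 / (N : ℝ) ^ (1 / 16 : ℝ)) := by
    have hp : (0 : ℝ) < (N : ℝ) ^ (1 / 16 : ℝ) := by positivity
    rw [mul_div_assoc', mul_div_assoc', le_div_iff₀ hp]
    have e1 : (N : ℝ) = (N : ℝ) ^ (7 / 8 : ℝ) * (N : ℝ) ^ (1 / 16 : ℝ) * (N : ℝ) ^ (1 / 16 : ℝ) := by
      rw [← Real.rpow_add hN0, ← Real.rpow_add hN0]
      norm_num
    have e2 : c₀ * (N : ℝ) / 4 = (c₀ * (N : ℝ) ^ (1 / 16 : ℝ) / 4) * ((N : ℝ) ^ (7 / 8 : ℝ) * (N : ℝ) ^ (1 / 16 : ℝ)) := by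
      nth_rewrite 1 [e1]
      ring
    rw [e2, mul_assoc]
    apply mul_le_mul_of_nonneg_right _ (by positivity)
    rw [div_le_iff₀ hc] at b3
    have := le_abs_self C
    linarith
  exact h8.trans (mul_le_mul_of_nonneg_left h7 hc.le)

/-- **The sieve.** -/
theorem sparse_sieve (D : ℕ) (F : Fin D → ℤ → Set Fam) (hF : ∀ l, Kind (F l)) :
    ∃ (W e : ℕ) (ρ : ℝ), 1 ≤ W ∧ 0 < ρ ∧ ∀ κ : Fin D → ℤ, (∀ l, κ l ≠ 0) → ∀ U : Set ℕ, Dense U → ∀ c : ℝ, 0 < c → ∀ l₀ : ℕ,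
    ∃ X₀ : ℕ, ∀ X : ℕ, X₀ ≤ X → ∀ f : Fin D → Fam, (∀ l, f l ∈ F l (κ l)) → (∀ l, (X : ℝ) ^ W ≤ (f l).size) →
    ∀ (Ω : ∀ l : ℕ, Set (Fin D → ZMod l)) (S : Finset ℕ), (S.card : ℝ) ≤ √X →
    (∀ l : ℕ, l.Prime → l ∈ U → l₀ ≤ l → l ∉ S → c * (l : ℝ) ^ D ≤ ((Ω l).ncard : ℝ)) →
    ∀ E : Finset (∀ l, (f l).ι), E ⊆ Fintype.piFinset (fun l => (f l).set) →
    (∀ i ∈ E, ∀ l : ℕ, l.Prime → l ∈ U → l₀ ≤ l → l ∉ S → l ≤ X → (fun k => ((f k).val (i k) : ZMod l)) ∉ Ω l) →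
    ∑ i ∈ E, ∏ l, (f l).wt (i l) ≤ (∑ l, (1 + |Real.log (f l).size|) ^ e) * (X : ℝ) ^ (-ρ) := by
  classical
  obtain ⟨W, e, K, ρ, hW, hK, hρ, H⟩ := poly_all D F hF (1 / 4) (by norm_num) (by norm_num)
  refine ⟨W, e, ρ, hW, hρ, fun κ hκ U hU c hc l₀ => ?_⟩
  obtain ⟨X₁, J⟩ := H κ hκ
  obtain ⟨X₂, hX₂⟩ := eventually_atTop.1 (dense_pow hU ((2 : ℝ) ^ D / c + l₀ + 2))
  refine ⟨X₁ + X₂ + 2, fun X hX f hf hsz Ω S hS hΩ E hE hbad => ?_⟩
  have hX1 : (1 : ℝ) ≤ X := by exact_mod_cast (by omega : 1 ≤ X)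
  have hX0 : (0 : ℝ) < X := by linarith
  obtain ⟨G, hG⟩ : ∃ G : ℕ → Prop, G = fun p => p ∈ U ∧ l₀ ≤ p ∧ p ∉ S := ⟨_, rfl⟩
  obtain ⟨h, hh⟩ : ∃ h : ℕ → ℕ → (Fin D → ℤ) → ℝ, h = fun j p m =>
      if j = 0 ∧ G p ∧ (fun k => (m k : ZMod p)) ∈ Ω p then 1 else 0 := ⟨_, rfl⟩
  have hsys : SysA h := by
    refine ⟨fun j p hp m m' hm => ?_, fun j p _ m => ?_⟩
    · have h1 : (fun k => (m k : ZMod p)) = fun k => (m' k : ZMod p) := by
        funext k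
        have h3 := (ZMod.intCast_zmod_eq_zero_iff_dvd (m k - m' k) p).2 (hm k)
        push_cast at h3
        exact sub_eq_zero.1 h3
      rw [hh]
      simp only [h1]
    · rw [hh]
      beta_reduce
      split_ifs <;> norm_num
  have hmean0 : ∀ p : ℕ, p.Prime → G p → c ≤ meanD p D (h 0 p) := by
    intro p hp hGp
    have hne : NeZero p := ⟨hp.ne_zero⟩
    have e1 : h 0 p = fun m : Fin D → ℤ => (fun u : Fin D → ZMod p => if u ∈ Ω p then (1 : ℝ) else 0) (fun k => (m k : ZMod p)) := by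
      funext m
      rw [hh]
      simp only [hGp, true_and]
    rw [e1, meanD_zmod p hp D (fun u : Fin D → ZMod p => if u ∈ Ω p then (1 : ℝ) else 0), sum_boole]
    have hcard : Fintype.card (ZMod p) = p := ZMod.card p
    rw [hcard, le_div_iff₀ (by have := hp.pos; positivity)]
    rw [hG] at hGp
    have h2 := hΩ p hp hGp.1 hGp.2.1 hGp.2.2
    rw [Set.ncard_eq_toFinset_card' (Ω p)] at h2
    refine h2.trans (le_of_eq ?_)
    congr 2
    ext u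
    simp
  have hmean1 : ∀ p : ℕ, p.Prime → meanD p D (h 0 p) ≤ 1 := by
    intro p hp
    refine (meanD_mono p D _ (fun _ => 1) fun m => (hsys.mem 0 p hp m).2).trans ?_
    rw [meanD_one p D hp.pos]
  have hmeannn : ∀ p : ℕ, 0 ≤ meanD p D (h 0 p) := by
    intro p
    rw [meanD_eq]
    refine mul_nonneg (by positivity) (sum_nonneg fun m _ => ?_)
    rw [hh]
    beta_reduce
    split_ifs <;> norm_num
  -- the number of the good primes
  have hcount : ((2 : ℝ) ^ D + c) * (X : ℝ) ^ (7 / 8 : ℝ) ≤ ∑ p ∈ pri X, meanD p D (h 0 p) := by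
    have h1 := hX₂ X (by omega)
    have hfinU : Finite {l : ℕ // l ≤ X ∧ l.Prime ∧ l ∈ U} := Set.Finite.subset (Set.finite_Iic X) fun l hl => hl.1
    have h2 : Nat.card {l : ℕ // l ≤ X ∧ l.Prime ∧ l ∈ U} ≤ ((pri X).filter G).card + (l₀ + S.card) := by
      have e1 : Nat.card {l : ℕ // l ≤ X ∧ l.Prime ∧ l ∈ U} ≤ Nat.card ((((pri X).filter G) ∪ (range l₀ ∪ S) : Finset ℕ)) := by
        refine Nat.card_le_card_of_injective (fun l => ⟨l.1, ?_⟩) fun a b hab => Subtype.ext (by simpa using hab)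
        obtain ⟨h3, h4, h5⟩ := l.2
        rw [mem_union, mem_union, mem_filter, mem_pri, mem_range, hG]
        by_cases h6 : l.1 < l₀
        · exact Or.inr (Or.inl h6)
        · by_cases h7 : l.1 ∈ S
          · exact Or.inr (Or.inr h7)
          · exact Or.inl ⟨⟨h3, h4⟩, h5, by omega, h7⟩
      rw [Nat.card_eq_fintype_card (α := (((pri X).filter G) ∪ (range l₀ ∪ S) : Finset ℕ)), Fintype.card_coe] at e1
      refine e1.trans ((card_union_le _ _).trans (Nat.add_le_add_left ((card_union_le _ _).trans ?_) _))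
      rw [card_range]
    have h2' : (Nat.card {l : ℕ // l ≤ X ∧ l.Prime ∧ l ∈ U} : ℝ) ≤ ((pri X).filter G).card + (l₀ + S.card) := by exact_mod_cast h2
    have hXp : 1 ≤ (X : ℝ) ^ (7 / 8 : ℝ) := Real.one_le_rpow hX1 (by norm_num)
    have h3 : √(X : ℝ) ≤ (X : ℝ) ^ (7 / 8 : ℝ) := by
      rw [Real.sqrt_eq_rpow]
      exact Real.rpow_le_rpow_of_exponent_le hX1 (by norm_num)
    have h4 : (l₀ : ℝ) + S.card ≤ (l₀ + 1) * (X : ℝ) ^ (7 / 8 : ℝ) := by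
      have : (l₀ : ℝ) ≤ l₀ * (X : ℝ) ^ (7 / 8 : ℝ) := le_mul_of_one_le_right (Nat.cast_nonneg _) hXp
      linarith
    have h5 : ((2 : ℝ) ^ D / c + 1) * (X : ℝ) ^ (7 / 8 : ℝ) ≤ ((pri X).filter G).card := by
      have e2 : ((2 : ℝ) ^ D / c + l₀ + 2) * (X : ℝ) ^ (7 / 8 : ℝ) = ((2 : ℝ) ^ D / c + 1) * (X : ℝ) ^ (7 / 8 : ℝ) +
        (l₀ + 1) * (X : ℝ) ^ (7 / 8 : ℝ) := by ring
      linarith
    have h6 : c * ((pri X).filter G).card ≤ ∑ p ∈ pri X, meanD p D (h 0 p) := by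
      calc c * ((pri X).filter G).card = ∑ p ∈ (pri X).filter G, c := by rw [sum_const, nsmul_eq_mul, mul_comm]
        _ ≤ ∑ p ∈ (pri X).filter G, meanD p D (h 0 p) := by
            refine sum_le_sum fun p hp => ?_
            rw [mem_filter, mem_pri] at hp
            exact hmean0 p hp.1.2 hp.2
        _ ≤ _ := sum_le_sum_of_subset_of_nonneg (filter_subset _ _) fun p _ _ => hmeannn p
    refine le_trans ?_ h6
    have h7 := mul_le_mul_of_nonneg_left h5 hc.le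
    refine le_trans (le_of_eq ?_) h7
    field_simp
  have hupper : √(max 1 (∑ p ∈ pri (2 ^ D * X), meanD p D (h 0 p))) * (X : ℝ) ^ (1 / 4 : ℝ) ≤ (2 : ℝ) ^ D * (X : ℝ) ^ (7 / 8 : ℝ) := by
    have h1 : ∑ p ∈ pri (2 ^ D * X), meanD p D (h 0 p) ≤ (2 : ℝ) ^ D * X := by
      calc ∑ p ∈ pri (2 ^ D * X), meanD p D (h 0 p) ≤ ∑ p ∈ pri (2 ^ D * X), (1 : ℝ) :=
            sum_le_sum fun p hp => hmean1 p (mem_pri.1 hp).2
        _ = ((pri (2 ^ D * X)).card : ℝ) := by rw [sum_const, nsmul_eq_mul, mul_one]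
        _ ≤ ((2 ^ D * X : ℕ) : ℝ) := Pool.Agent.T3h87.LT.pri_card _
        _ = _ := by push_cast; ring
    have h2 : (1 : ℝ) ≤ (2 : ℝ) ^ D := one_le_pow₀ (by norm_num)
    have h3 : max 1 (∑ p ∈ pri (2 ^ D * X), meanD p D (h 0 p)) ≤ ((2 : ℝ) ^ D * √X) ^ 2 := by
      rw [mul_pow, Real.sq_sqrt hX0.le]
      refine max_le ?_ (h1.trans ?_)
      · nlinarith [sq_nonneg ((2 : ℝ) ^ D)]
      · apply mul_le_mul_of_nonneg_right _ hX0.le
        nlinarith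
    have h4 : √(max 1 (∑ p ∈ pri (2 ^ D * X), meanD p D (h 0 p))) ≤ (2 : ℝ) ^ D * √X := by
      rw [Real.sqrt_le_left (by positivity)]
      exact h3
    calc √(max 1 (∑ p ∈ pri (2 ^ D * X), meanD p D (h 0 p))) * (X : ℝ) ^ (1 / 4 : ℝ) ≤ ((2 : ℝ) ^ D * √X) * (X : ℝ) ^ (1 / 4 : ℝ) :=
          mul_le_mul_of_nonneg_right h4 (by positivity)
      _ = (2 : ℝ) ^ D * (X : ℝ) ^ (3 / 4 : ℝ) := by
          rw [mul_assoc, Real.sqrt_eq_rpow, ← Real.rpow_add hX0]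
          norm_num
      _ ≤ _ := by
          apply mul_le_mul_of_nonneg_left _ (by positivity)
          exact Real.rpow_le_rpow_of_exponent_le hX1 (by norm_num)
  refine J X (by omega) f hf h hsys E hE fun i hi => ⟨X, le_rfl, hsz, 0, ?_, ?_⟩
  · rw [zero_add, one_pow]
    omega
  · have h1 : ∑ p ∈ pri X, (h 0 p (fun l => (f l).val (i l)) - meanD p D (h 0 p)) = -∑ p ∈ pri X, meanD p D (h 0 p) := by
      rw [← sum_neg_distrib]
      refine sum_congr rfl fun p hp => ?_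
      rw [mem_pri] at hp
      have h2 : h 0 p (fun l => (f l).val (i l)) = 0 := by
        rw [hh]
        beta_reduce
        rw [if_neg]
        rintro ⟨-, h3, h4⟩
        rw [hG] at h3
        exact hbad i hi p hp.2 h3.1 h3.2.1 h3.2.2 hp.1 h4
      rw [h2, zero_sub]
    rw [h1, abs_neg, abs_of_nonneg (sum_nonneg fun p _ => hmeannn p)]
    refine lt_of_le_of_lt hupper (lt_of_lt_of_le ?_ hcount)
    have h2 : 0 < (X : ℝ) ^ (7 / 8 : ℝ) := by positivity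
    nlinarith

end Pool.Agent.T3h87.SS
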