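import Pool.Agent.W401.Cheb.Main
import Pool.Agent.T3h87.SS.Sieve

/-!
# Primes with a prime ideal of degree one in a number field: they have positive lower density
-/

set_option autoImplicit false

namespace Pool.Agent.T3h87.SS

open NumberField Filter Topology Polynomial
open Pool.Agent.W401.Cheb (xp pr HasFrob TorAt torsor chebotarev sum_xp finite_hom)

theorem xp_le (E : Type) [Field E] [NumberField E] [IsGalois ℚ E] (l : ℕ)
    [hl : Fact l.Prime] (ht : TorAt E l) : xp E 1 l ≤ Nat.card Gal(E/ℚ) := by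
  have hfin := finite_hom ht
  unfold xp
  rw [dif_pos hl.out, ← ht.1]
  exact Nat.card_le_card_of_injective Subtype.val Subtype.val_injective

/-- the theorem of Chebotarev for the identity -/
theorem dense_xp (E : Type) [Field E] [NumberField E] [IsGalois ℚ E] (A₀ : ℕ) (hA₀ : 0 < A₀) :
    Dense {p : ℕ | ¬ p ∣ A₀ ∧ xp E 1 p ≠ 0} := by
  classical
  obtain ⟨D', hD', htor⟩ := torsor E
  obtain ⟨D, hDdef⟩ : ∃ D, D = D' * A₀ := ⟨_, rfl⟩
  have hD : 0 < D := by rw [hDdef]; positivity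
  have hcheb := chebotarev E 1
  set n : ℕ := Nat.card Gal(E/ℚ) with hn
  have hn0 : 0 < n := Nat.card_pos
  set A : ℕ := ∑ p ∈ Finset.range (D + 1), xp E 1 p with hA
  have hpi : Tendsto (fun N : ℕ => (Nat.primeCounting N : ℝ)) atTop atTop :=
    tendsto_natCast_atTop_atTop.comp Nat.tendsto_primeCounting
  refine ⟨1 / (4 * n), by positivity, ?_⟩
  have h1 : ∀ᶠ N : ℕ in atTop, 1 / 2 < (∑ p ∈ pr N, (xp E 1 p : ℝ)) / (Nat.primeCounting N : ℝ) :=
    hcheb.eventually (lt_mem_nhds (by norm_num))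
  filter_upwards [h1, hpi.eventually_ge_atTop (4 * A + 1 : ℝ)] with N hN1 hN2
  have hpos : (0 : ℝ) < Nat.primeCounting N := by
    have : (0 : ℝ) ≤ 4 * A := by positivity
    linarith
  rw [lt_div_iff₀ hpos] at hN1
  set S : Finset ℕ := (pr N).filter (fun p => ¬ p ∣ D ∧ xp E 1 p ≠ 0) with hS
  have hle : ∑ p ∈ pr N, xp E 1 p ≤ A + n * S.card := by
    rw [← Finset.sum_filter_add_sum_filter_not (pr N) (fun p => p ∣ D)]
    refine Nat.add_le_add ?_ ?_
    · refine Finset.sum_le_sum_of_subset ?_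
      intro p hp
      obtain ⟨-, h3⟩ := Finset.mem_filter.1 hp
      exact Finset.mem_range.2 (Nat.lt_succ_of_le (Nat.le_of_dvd hD h3))
    · rw [mul_comm, ← smul_eq_mul, ← Finset.sum_const]
      have h4 : ∑ p ∈ (pr N).filter (fun p => ¬ p ∣ D), xp E 1 p = ∑ p ∈ S, xp E 1 p := by
        symm
        refine Finset.sum_subset ?_ ?_
        · intro p hp
          rw [hS, Finset.mem_filter] at hp
          exact Finset.mem_filter.2 ⟨hp.1, hp.2.1⟩
        · intro p hp hpS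
          by_contra h0
          apply hpS
          rw [hS, Finset.mem_filter]
          exact ⟨(Finset.mem_filter.1 hp).1, (Finset.mem_filter.1 hp).2, h0⟩
      rw [h4]
      refine Finset.sum_le_sum ?_
      intro p hp
      rw [hS, Finset.mem_filter, pr, Finset.mem_filter] at hp
      have : Fact p.Prime := ⟨hp.1.2⟩
      exact xp_le E p (htor p fun h => hp.2.1 (by rw [hDdef]; exact h.mul_right _))
  have hScard : (S.card : ℝ) ≤ (Nat.card {l : ℕ // l ≤ N ∧ l.Prime ∧ l ∈ {p : ℕ | ¬ p ∣ A₀ ∧ xp E 1 p ≠ 0}} : ℝ) := by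
    have hfin : Finite {l : ℕ // l ≤ N ∧ l.Prime ∧ l ∈ {p : ℕ | ¬ p ∣ A₀ ∧ xp E 1 p ≠ 0}} :=
      Set.Finite.subset (Set.finite_Iic N) fun l hl => hl.1
    have h5 : Nat.card S ≤ Nat.card {l : ℕ // l ≤ N ∧ l.Prime ∧ l ∈ {p : ℕ | ¬ p ∣ A₀ ∧ xp E 1 p ≠ 0}} := by
      refine Nat.card_le_card_of_injective (fun s : S => ⟨s.1, ?_⟩) ?_
      · have hs : (s : ℕ) ∈ (pr N).filter (fun p => ¬ p ∣ D ∧ xp E 1 p ≠ 0) := s.2
        rw [Finset.mem_filter, pr, Finset.mem_filter, Finset.mem_range] at hs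
        exact ⟨by omega, hs.1.2, fun h => hs.2.1 (by rw [hDdef]; exact h.mul_left _), hs.2.2⟩
      · intro s t hst
        exact Subtype.ext (Subtype.mk.inj hst)
    rw [Nat.card_eq_fintype_card, Fintype.card_coe] at h5
    exact_mod_cast h5
  have hle' : (∑ p ∈ pr N, (xp E 1 p : ℝ)) ≤ A + n * (S.card : ℝ) := by exact_mod_cast hle
  have hn' : (0 : ℝ) < n := by exact_mod_cast hn0
  change 1 / (4 * n) * (Nat.primeCounting N : ℝ) ≤ (Nat.card {l : ℕ // l ≤ N ∧ l.Prime ∧ l ∈ {p : ℕ | ¬ p ∣ A₀ ∧ xp E 1 p ≠ 0}} : ℝ)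
  obtain ⟨M, hM⟩ : ∃ M : ℝ, M = (Nat.card {l : ℕ // l ≤ N ∧ l.Prime ∧ l ∈ {p : ℕ | ¬ p ∣ A₀ ∧ xp E 1 p ≠ 0}} : ℝ) := ⟨_, rfl⟩
  rw [← hM] at hScard ⊢
  rw [div_mul_eq_mul_div, one_mul, div_le_iff₀ (by positivity)]
  have h6 : (n : ℝ) * S.card ≤ n * M := mul_le_mul_of_nonneg_left hScard hn'.le
  linarith

/-- a homomorphism with trivial Frobenius has its values in the prime field -/
theorem hom_of_frob {R : Type} [CommRing R] {p : ℕ} [hp : Fact p.Prime] (φ : R →+* AlgebraicClosure (ZMod p))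
    (h : ∀ x, φ x ^ p = φ x) : Nonempty (R →+* ZMod p) := by
  let ι : ZMod p →+* AlgebraicClosure (ZMod p) := algebraMap _ _
  have hmem : ∀ x, φ x ∈ ι.range := by
    intro x
    have h1 : φ x ∈ (⊥ : Subfield (AlgebraicClosure (ZMod p))) := (Subfield.mem_bot_iff_pow_eq_self _ p).2 (h x)
    have h2 : (⊥ : Subfield (AlgebraicClosure (ZMod p))) ≤ ι.fieldRange := bot_le
    exact h2 h1
  let e : ZMod p ≃+* ι.range := RingEquiv.ofBijective ι.rangeRestrict ⟨fun a b hab => ι.injective (congrArg Subtype.val hab), ι.rangeRestrict_surjective⟩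
  exact ⟨(e.symm : ι.range →+* ZMod p).comp (φ.codRestrict ι.range hmem)⟩

/-- **The primes with a prime ideal of degree one.** -/
theorem dense_hom (E : Type) [Field E] [NumberField E] (A : ℕ) (hA : 0 < A) :
    Dense {p : ℕ | ¬ p ∣ A ∧ Nonempty (𝓞 E →+* ZMod p)} := by
  have hcl : IsAlgClosure ℚ (AlgebraicClosure E) := IsAlgClosure.ofAlgebraic ℚ E (AlgebraicClosure E)
  have hnorm : Normal ℚ (AlgebraicClosure E) := IsAlgClosure.normal ℚ (AlgebraicClosure E)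
  have hgal : IsGalois ℚ (AlgebraicClosure E) := {}
  let L := IntermediateField.normalClosure ℚ E (AlgebraicClosure E)
  have : FiniteDimensional ℚ L := inferInstance
  have : NumberField L := {}
  have : IsGalois ℚ L := IsGalois.normalClosure ℚ E (AlgebraicClosure E)
  refine (dense_xp L A hA).mono fun p hp => ⟨hp.1, ?_⟩
  have hx := hp.2
  unfold xp at hx
  split_ifs at hx with h0
  · have hpF : Fact p.Prime := ⟨h0⟩
    obtain ⟨⟨⟨φ₀, hφ₀⟩⟩, -⟩ := Nat.card_ne_zero.1 hx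
    refine hom_of_frob (φ₀.comp (algebraMap (𝓞 E) (𝓞 L))) fun x => ?_
    rw [RingHom.comp_apply, ← hφ₀, one_smul]
  · exact absurd rfl hx

/-- clearing denominators -/
theorem clear_den (P : ℚ[X]) : ∃ (D : ℕ) (p : ℤ[X]), D ≠ 0 ∧
    p.map (Int.castRingHom ℚ) = C (D : ℚ) * P := by
  obtain ⟨b, hbm, hb⟩ := IsLocalization.integerNormalization_spec (nonZeroDivisors ℤ) P
  have hb0 : (b : ℤ) ≠ 0 := nonZeroDivisors.ne_zero hbm
  refine ⟨(b : ℤ).natAbs, C ((b : ℤ).sign) *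
    IsLocalization.integerNormalization (nonZeroDivisors ℤ) P, Int.natAbs_ne_zero.2 hb0, ?_⟩
  have h1 : (IsLocalization.integerNormalization (nonZeroDivisors ℤ) P).map (Int.castRingHom ℚ)
      = C ((b : ℤ) : ℚ) * P := by
    have h2 : (algebraMap ℤ ℚ) = Int.castRingHom ℚ := rfl
    rw [← h2, hb]
    ext n
    rw [coeff_C_mul, coeff_smul]
    simp [Algebra.smul_def]
  rw [Polynomial.map_mul, h1, map_C, ← mul_assoc, ← C_mul]
  congr 2
  simp only [eq_intCast]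
  rw [← Int.cast_mul, Int.sign_mul_self_eq_natAbs]
  simp

/-- Hensel's lemma for a simple zero modulo `P` -/
theorem hensel_int {P : ℕ} [hP : Fact P.Prime] {h : ℤ[X]} {γ : ZMod P} (h0 : (h.map (Int.castRingHom (ZMod P))).eval γ = 0)
    (h1 : (h.map (Int.castRingHom (ZMod P))).derivative.eval γ ≠ 0) :
    ∃ x : ℤ_[P], aeval x h = 0 := by
  obtain ⟨a, ha⟩ := ZMod.intCast_surjective γ
  have hto : ∀ x : ℤ, PadicInt.toZMod ((x : ℤ) : ℤ_[P]) = (x : ZMod P) := fun x => map_intCast _ x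
  have hnorm : ∀ y : ℤ_[P], ‖y‖ < 1 ↔ PadicInt.toZMod y = 0 := by
    intro y
    rw [← PadicInt.mem_nonunits, ← RingHom.mem_ker, PadicInt.ker_toZMod]
    rfl
  have hev : ∀ f : ℤ[X], PadicInt.toZMod (aeval ((a : ℤ) : ℤ_[P]) f) =
      (f.map (Int.castRingHom (ZMod P))).eval γ := by
    intro f
    have e1 : aeval ((a : ℤ) : ℤ_[P]) f = ((f.eval a : ℤ) : ℤ_[P]) := by
      rw [aeval_def, algebraMap_int_eq, ← eq_intCast (Int.castRingHom ℤ_[P]) a, eval₂_at_apply,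
        eq_intCast]
    rw [e1, hto, ← ha, ← eq_intCast (Int.castRingHom (ZMod P)) a, eval_map_apply, eq_intCast]
  have e2 : ‖aeval ((a : ℤ) : ℤ_[P]) (derivative h)‖ = 1 := by
    refine le_antisymm (PadicInt.norm_le_one _) (not_lt.1 fun h2 => ?_)
    rw [hnorm, hev, ← derivative_map] at h2
    exact h1 h2
  obtain ⟨x, hx, hxa, -⟩ := hensels_lemma (p := P) (R := ℤ) (F := h) (a := ((a : ℤ) : ℤ_[P])) (by
    have e1 : ‖aeval ((a : ℤ) : ℤ_[P]) h‖ < 1 := by rw [hnorm, hev, h0]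
    rw [e2, one_pow]
    exact e1)
  exact ⟨x, hx⟩

/-- from a prime ideal of degree one to an embedding in the field of the `P`-adic numbers -/
theorem emb_of_hom (L : Type) [Field L] [NumberField L] : ∃ A : ℕ, 0 < A ∧ ∀ (P : ℕ) [Fact P.Prime], ¬ P ∣ A →
    Nonempty (𝓞 L →+* ZMod P) → Nonempty (L →+* ℚ_[P]) := by
  classical
  set pb := Field.powerBasisOfFiniteOfSeparable ℚ L with hpb
  set f := minpoly ℚ pb.gen with hf
  obtain ⟨b, hb0, hbint⟩ := IsAlgebraic.exists_integral_multiple (R := ℤ) (z := pb.gen)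
    ((IsFractionRing.isAlgebraic_iff ℤ ℚ L).2 (Algebra.IsAlgebraic.isAlgebraic pb.gen))
  obtain ⟨α, hα⟩ : ∃ α : 𝓞 L, (α : L) = b • pb.gen := ⟨⟨b • pb.gen, hbint⟩, rfl⟩
  obtain ⟨G, hG⟩ : ∃ G : ℤ[X], G = minpoly ℤ (α : L) := ⟨_, rfl⟩
  have hGQ : G.map (algebraMap ℤ ℚ) = minpoly ℚ (α : L) := by
    rw [hG, minpoly.isIntegrallyClosed_eq_field_fractions' ℚ α.isIntegral_coe]
  have hsep : (minpoly ℚ (α : L)).Separable := (minpoly.irreducible (Algebra.IsIntegral.isIntegral (α : L))).separable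
  obtain ⟨u, v, N0, hN0, huv⟩ : ∃ (u v : ℤ[X]) (N0 : ℕ), N0 ≠ 0 ∧
      u * G + v * derivative G = C (N0 : ℤ) := by
    obtain ⟨a, b', hab⟩ := hsep
    obtain ⟨Da, pa, hDa, hpa⟩ := clear_den a
    obtain ⟨Db, pb', hDb, hpb'⟩ := clear_den b'
    refine ⟨C (Db : ℤ) * pa, C (Da : ℤ) * pb', Da * Db, mul_ne_zero hDa hDb, ?_⟩
    apply Polynomial.map_injective (Int.castRingHom ℚ) Int.cast_injective
    have e : ∀ n : ℕ, (Int.castRingHom ℚ) (n : ℤ) = (n : ℚ) := fun n => by simp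
    have h3 : (C ((Da : ℚ) * Db) : ℚ[X]) = C ((Da : ℚ) * Db) * 1 := by rw [mul_one]
    have hGQ' : G.map (Int.castRingHom ℚ) = minpoly ℚ (α : L) := hGQ
    rw [Polynomial.map_add, Polynomial.map_mul, Polynomial.map_mul, Polynomial.map_mul,
      Polynomial.map_mul, map_C, map_C, map_C, ← derivative_map, hpa, hpb', hGQ', e, e, e, Nat.cast_mul, h3, ← hab, C_mul]
    ring
  refine ⟨N0, Nat.pos_of_ne_zero hN0, fun P _ hPA hφ => ?_⟩
  obtain ⟨φ⟩ := hφ
  have h0 : (G.map (Int.castRingHom (ZMod P))).eval (φ α) = 0 := by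
    have h1 : aeval α G = 0 := by
      apply RingOfIntegers.ext
      have h2 : aeval (α : L) G = 0 := by rw [hG]; exact minpoly.aeval ℤ (α : L)
      exact ((aeval_algebraMap_apply L α G).symm.trans h2).trans (map_zero (algebraMap (𝓞 L) L)).symm
    have h2 := congrArg φ h1
    rw [map_zero, aeval_def, hom_eval₂] at h2
    have e : φ.comp (algebraMap ℤ (𝓞 L)) = Int.castRingHom (ZMod P) := RingHom.ext_int _ _
    rw [e] at h2
    rw [eval_map]
    exact h2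
  have h1 : (G.map (Int.castRingHom (ZMod P))).derivative.eval (φ α) ≠ 0 := by
    intro h2
    have h3 := congrArg (fun q : ℤ[X] => (q.map (Int.castRingHom (ZMod P))).eval (φ α)) huv
    simp only [Polynomial.map_add, Polynomial.map_mul, eval_add, eval_mul, h0, ← derivative_map, h2, mul_zero, add_zero, map_C, eval_C] at h3
    apply hPA
    rw [← ZMod.natCast_eq_zero_iff]
    simpa using h3.symm
  obtain ⟨x, hx⟩ := hensel_int h0 h1
  have hxQ : aeval (x : ℚ_[P]) (minpoly ℚ (α : L)) = 0 := by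
    rw [← hGQ, aeval_map_algebraMap]
    have h2 := congrArg (algebraMap ℤ_[P] ℚ_[P]) hx
    rw [map_zero] at h2
    rw [← h2]
    exact aeval_algebraMap_apply ℚ_[P] x G
  have hbQ : (b : ℚ) ≠ 0 := by exact_mod_cast hb0
  have hbP : ((b : ℚ) : ℚ_[P]) ≠ 0 := by exact_mod_cast hb0
  have hdvd : minpoly ℚ (α : L) ∣ scaleRoots f (b : ℚ) := by
    apply minpoly.dvd
    have h2 := scaleRoots_eval₂_eq_zero (p := f) (algebraMap ℚ L) (r := pb.gen) (s := (b : ℚ)) (by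
      rw [hf]
      exact minpoly.aeval ℚ pb.gen)
    have e : (b : ℤ) • pb.gen = algebraMap ℚ L (b : ℚ) * pb.gen := by
      rw [zsmul_eq_mul]
      simp
    rw [aeval_def, hα, e]
    exact h2
  have hroot : aeval (((b : ℚ) : ℚ_[P])⁻¹ * (x : ℚ_[P])) f = 0 := by
    obtain ⟨q, hq⟩ := hdvd
    have h2 : aeval (x : ℚ_[P]) (scaleRoots f (b : ℚ)) = 0 := by rw [hq, map_mul, hxQ, zero_mul]
    have h3 := scaleRoots_eval₂_mul (p := f) (algebraMap ℚ ℚ_[P]) (((b : ℚ) : ℚ_[P])⁻¹ * (x : ℚ_[P])) (b : ℚ)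
    have h4 : (algebraMap ℚ ℚ_[P]) (b : ℚ) * (((b : ℚ) : ℚ_[P])⁻¹ * (x : ℚ_[P])) = x := by
      rw [eq_ratCast, ← mul_assoc, mul_inv_cancel₀ hbP, one_mul]
    rw [h4, ← aeval_def, h2] at h3
    have h5 : (algebraMap ℚ ℚ_[P]) (b : ℚ) ^ f.natDegree ≠ 0 := by
      rw [eq_ratCast]
      exact pow_ne_zero _ hbP
    rw [aeval_def]
    exact (mul_eq_zero.1 h3.symm).resolve_left h5
  exact ⟨(pb.lift (((b : ℚ) : ℚ_[P])⁻¹ * (x : ℚ_[P])) hroot : L →ₐ[ℚ] ℚ_[P]).toRingHom⟩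

/-- **The primes with an embedding in the field of the `P`-adic numbers, and congruent to one.** -/
theorem dense_emb (k : Type) [Field k] [NumberField k] {R : ℕ} (hR : 0 < R) :
    Dense {P : ℕ | ∃ _ : Fact P.Prime, Nonempty (k →+* ℚ_[P]) ∧ R ∣ P - 1} := by
  classical
  let Ω := AlgebraicClosure k
  have : NeZero ((R : ℕ) : Ω) := ⟨by exact_mod_cast hR.ne'⟩
  obtain ⟨ξ, hξ⟩ := IsAlgClosed.exists_root (cyclotomic R Ω) (by
    rw [degree_cyclotomic]
    have := Nat.totient_pos.2 hR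
    exact_mod_cast this.ne')
  have hξ' : IsPrimitiveRoot ξ R := isRoot_cyclotomic_iff.1 hξ
  let L := IntermediateField.adjoin k ({ξ} : Set Ω)
  have : FiniteDimensional k L :=
    IntermediateField.finiteDimensional_adjoin fun x _ =>
      (AlgebraicClosure.isAlgebraic k).isAlgebraic x |>.isIntegral
  have : CharZero L := charZero_of_injective_algebraMap (algebraMap k L).injective
  have : FiniteDimensional ℚ L := Module.Finite.trans k L
  have : NumberField L := {}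
  obtain ⟨A, hA, hemb⟩ := emb_of_hom L
  have hξL : ξ ∈ L := IntermediateField.mem_adjoin_simple_self k ξ
  have hprim : IsPrimitiveRoot (⟨ξ, hξL⟩ : L) R := by
    refine IsPrimitiveRoot.of_map_of_injective (f := algebraMap L Ω) ?_ (algebraMap L Ω).injective
    exact hξ'
  have hint : IsIntegral ℤ (⟨ξ, hξL⟩ : L) := IsIntegral.of_pow hR (by rw [hprim.pow_eq_one]; exact isIntegral_one)
  obtain ⟨z, hz⟩ : ∃ z : 𝓞 L, (z : L) = ⟨ξ, hξL⟩ := ⟨⟨_, hint⟩, rfl⟩
  have hzp : IsPrimitiveRoot z R := by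
    refine IsPrimitiveRoot.of_map_of_injective (f := algebraMap (𝓞 L) L) ?_ (FaithfulSMul.algebraMap_injective (𝓞 L) L)
    rw [show algebraMap (𝓞 L) L z = ⟨ξ, hξL⟩ from hz]
    exact hprim
  have h1 : Dense ({p : ℕ | ¬ p ∣ A * R ∧ Nonempty (𝓞 L →+* ZMod p)} ∩ {p | p.Prime}) := by
    obtain ⟨c₀, hc, h2⟩ := dense_hom L (A * R) (by positivity)
    refine ⟨c₀, hc, h2.mono fun N hN => hN.trans (le_of_eq ?_)⟩
    congr 1
    refine Nat.card_congr (Equiv.subtypeEquivRight fun l => ?_)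
    exact ⟨fun h => ⟨h.1, h.2.1, h.2.2, h.2.1⟩, fun h => ⟨h.1, h.2.1, h.2.2.1⟩⟩
  refine h1.mono fun P hP => ?_
  obtain ⟨⟨hPA, hφ⟩, hPp⟩ := hP
  have hF : Fact P.Prime := ⟨hPp⟩
  obtain ⟨σ⟩ := hemb P (fun h => hPA (h.mul_right _)) hφ
  obtain ⟨φ⟩ := hφ
  refine ⟨hF, ⟨σ.comp (algebraMap k L)⟩, ?_⟩
  have h3 : IsPrimitiveRoot (φ z) R := by
    have hn : ((R : ℕ) : ZMod P) ≠ 0 := by
      intro h0
      rw [ZMod.natCast_eq_zero_iff] at h0
      exact hPA (h0.mul_left _)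
    have : NeZero ((R : ℕ) : ZMod P) := ⟨hn⟩
    have : NeZero ((R : ℕ) : 𝓞 L) := ⟨by exact_mod_cast hR.ne'⟩
    rw [← isRoot_cyclotomic_iff] at hzp ⊢
    rw [IsRoot.def] at hzp ⊢
    have h1 : cyclotomic R (ZMod P) = (cyclotomic R (𝓞 L)).map φ := by rw [map_cyclotomic]
    rw [h1, eval_map_apply, hzp, map_zero]
  exact h3.dvd_of_pow_eq_one _ (ZMod.pow_card_sub_one_eq_one (h3.ne_zero hR.ne'))

end Pool.Agent.T3h87.SS
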