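import Pool.Agent.T3h87.SS.Rare
import Pool.Agent.T3h87.SS.Supply
import Pool.Agent.N140.RO.Sv2

/-!
# The sieve for sparse families: coordinates over a number field, tests at the prime ideals of degree one of an extension
-/

set_option autoImplicit false

namespace Pool.Agent.T3h87.SS

open Finset Filter NumberField
open Pool.Agent.T3h87.LT (Fam Kind)
open Pool.Agent.N140.RO (vec)
open Pool.Agent.N140.RO.Two2 (Big Om of_mem_Om dens_Om)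


/-- the prime ideal of degree one given by a homomorphism -/
theorem big_of_hom {E : Type} [Field E] [NumberField E] {B : ℕ} {c₀ : 𝓞 E} {q : ℕ} (hq : q.Prime)
    (hqN : ¬ q ∣ 2 * B.factorial * Ideal.absNorm (Ideal.span {c₀})) (φ : 𝓞 E →+* ZMod q) :
    ∃ P ∈ Big E B c₀, Nat.card (𝓞 E ⧸ P) = q ∧ Function.Surjective fun a : ℤ => (a : 𝓞 E ⧸ P) := by
  have : Fact q.Prime := ⟨hq⟩
  have hs : Function.Surjective φ := by
    intro x
    obtain ⟨a, rfl⟩ := ZMod.intCast_surjective x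
    exact ⟨(a : 𝓞 E), map_intCast φ a⟩
  have e := RingHom.quotientKerEquivOfSurjective hs
  have hc : Nat.card (𝓞 E ⧸ RingHom.ker φ) = q := by
    rw [Nat.card_congr e.toEquiv, Nat.card_zmod]
  have hfin : Finite (𝓞 E ⧸ RingHom.ker φ) := Finite.of_equiv _ e.toEquiv.symm
  have h2 : ¬ q ∣ 2 := fun h => hqN ((h.mul_right _).mul_right _)
  have hB : B < q := by
    by_contra hle
    push Not at hle
    exact hqN (((Nat.dvd_factorial hq.pos hle).mul_left 2).mul_right _)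
  have hc0 : c₀ ∉ RingHom.ker φ := by
    intro h
    apply hqN
    refine Dvd.dvd.mul_left ?_ _
    have h1 : ((Ideal.absNorm (Ideal.span {c₀}) : ℕ) : 𝓞 E) ∈ Ideal.span {c₀} := Ideal.absNorm_mem _
    obtain ⟨y, hy⟩ := Ideal.mem_span_singleton.1 h1
    rw [← ZMod.natCast_eq_zero_iff, ← map_natCast φ, hy, map_mul, RingHom.mem_ker.1 h, zero_mul]
  refine ⟨RingHom.ker φ, ⟨⟨RingHom.ker_isMaximal_of_surjective φ hs, hfin, ?_, ?_⟩, hc0⟩, hc, ?_⟩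
  · rw [hc]; exact hB.le
  · rw [RingHom.mem_ker, map_ofNat]
    intro h
    apply h2
    rw [← ZMod.natCast_eq_zero_iff]
    exact_mod_cast h
  · intro y
    obtain ⟨a, ha⟩ := ZMod.intCast_surjective (e y)
    refine ⟨a, e.injective ?_⟩
    simp only [map_intCast, ha]

/-- **The sieve over a number field.** -/
theorem sparse_pro {J I : Type} [Fintype J] [Fintype I] (F : I × J → ℤ → Set Fam) (hF : ∀ l, Kind (F l)) :
    ∃ (e : ℕ) (ρ : ℝ), 0 < ρ ∧ ∀ κ : I × J → ℤ, (∀ l, κ l ≠ 0) →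
    ∀ (K E : Type) [Field K] [Field E] [NumberField E] [Algebra K E] (ω : Module.Basis J ℤ (𝓞 K)) (B : ℕ) (c₀ : 𝓞 E), c₀ ≠ 0 →
    ∀ (σ : Type) (_ : Finite σ) (Ev : σ → ∀ P : Ideal (𝓞 E), Set (I → 𝓞 E ⧸ P)) (δ : ℝ), 0 < δ →
      (∀ s, ∀ P ∈ Big E B c₀, δ * (Nat.card (𝓞 E ⧸ P) : ℝ) ^ Fintype.card I ≤ ((Ev s P).ncard : ℝ)) →
    ∃ Y₀ : ℝ, 1 ≤ Y₀ ∧ ∀ Bad : (I × J → ℤ) → Prop,
      (∀ c, (∀ s, ∃ P ∈ Big E B c₀, (fun i => Ideal.Quotient.mk P (algebraMap (𝓞 K) (𝓞 E) (vec ω c i))) ∈ Ev s P) → ¬ Bad c) →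
      ∀ Y : ℝ, Y₀ ≤ Y → ∀ f : I × J → Fam, (∀ l, f l ∈ F l (κ l)) → (∀ l, Y ≤ (f l).size) →
      probability f Bad ≤ Y ^ (-ρ) * ∑ l, (1 + |Real.log (f l).size|) ^ e := by
  classical
  obtain ⟨e, ρ, hρ, H⟩ := rare_sieve F hF
  refine ⟨e, ρ, hρ, fun κ hκ K E _ _ _ _ ω B c₀ h₀ σ hσ Ev δ hδ hE => ?_⟩
  have hz : 0 < Ideal.absNorm (Ideal.span {c₀}) := by
    rw [Nat.pos_iff_ne_zero, Ne, Ideal.absNorm_eq_zero_iff, Ideal.span_singleton_eq_bot]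
    exact h₀
  have hA : 0 < 2 * B.factorial * Ideal.absNorm (Ideal.span {c₀}) := by positivity
  obtain ⟨Y₀, hY₀, J1⟩ := H κ hκ σ hσ (fun _ => {p | ¬ p ∣ 2 * B.factorial * Ideal.absNorm (Ideal.span {c₀}) ∧
    Nonempty (𝓞 E →+* ZMod p)}) (fun _ => dense_hom E _ hA) δ hδ 0
  refine ⟨Y₀, hY₀, fun Bad hBad Y hY f hf hsz => ?_⟩
  refine J1 (fun s l => Om ω B c₀ (Ev s) l) ∅ Bad Y hY ?_ (fun s l hl hlU _ _ => ?_) (fun v hv => ?_) f hf hsz
  · rw [card_empty, Nat.cast_zero]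
    have : (0 : ℝ) < Y := by linarith
    positivity
  · obtain ⟨hlA, ⟨φ⟩⟩ := hlU
    obtain ⟨P, hP, hc, hs⟩ := big_of_hom hl hlA φ
    exact dens_Om ω B c₀ (Ev s) (hE s) P hP hc hs
  · refine hBad v fun s => ?_
    obtain ⟨l, hl, -, -, -, hmem⟩ := hv s
    exact of_mem_Om ω B c₀ (Ev s) hl.pos hmem

end Pool.Agent.T3h87.SS
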