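import Pool.Agent.T3h87.SS.Rare

/-!
# Random sequences of vectors: all but finitely many members are good
-/

set_option autoImplicit false

namespace Pool.Agent.T3h87.SS

open Finset Filter MeasureTheory
open Pool.Agent.T3h87.LT (Fam Kind)

/-- The random vector `X` has independent coordinates, and the coordinate number `l` has the distribution of `f l`. -/
def HasLaw {ι Ω : Type} [Fintype ι] [MeasurableSpace Ω] (P : Measure Ω) (X : Ω → ι → ℤ) (f : ι → Fam) : Prop :=
  ∀ v : ι → ℤ, P {w | X w = v} = ENNReal.ofReal (probability f fun u => u = v)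

lemma meas_bad {ι Ω : Type} [Fintype ι] [MeasurableSpace Ω] {P : Measure Ω} {X : Ω → ι → ℤ} {f : ι → Fam}
    (h : HasLaw P X f) (hw : ∀ l, ∀ i ∈ (f l).set, 0 ≤ (f l).wt i) (Bad : (ι → ℤ) → Prop) :
    P {w | Bad (X w)} ≤ ENNReal.ofReal (probability f Bad) := by
  classical
  obtain ⟨S, hS⟩ : ∃ S, S = (Fintype.piFinset fun l => (f l).set) := ⟨_, rfl⟩
  obtain ⟨V, hV⟩ : ∃ V : Finset (ι → ℤ), V = S.image fun i l => (f l).val (i l) := ⟨_, rfl⟩
  have hnn : ∀ i ∈ S, 0 ≤ ∏ l, (f l).wt (i l) := fun i hi =>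
    prod_nonneg fun l _ => hw l _ (Fintype.mem_piFinset.1 (hS ▸ hi) l)
  have h0 : ∀ v ∉ V, P {w | X w = v} = 0 := by
    intro v hv
    rw [h v]
    have e : probability f (fun u => u = v) = 0 := by
      unfold probability
      rw [← hS]
      refine sum_eq_zero fun i hi => ?_
      simp only [mem_filter] at hi
      exact absurd (by rw [hV, mem_image]; exact ⟨i, hi.1, hi.2⟩) hv
    rw [e, ENNReal.ofReal_zero]
  have hsub : {w | Bad (X w)} ⊆ (⋃ v ∈ V.filter Bad, {w | X w = v}) ∪ ⋃ v : {v : ι → ℤ // v ∉ V}, {w | X w = v} := by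
    intro w hw1
    by_cases hv : X w ∈ V
    · left
      rw [Set.mem_iUnion₂]
      exact ⟨X w, by rw [mem_filter]; exact ⟨hv, hw1⟩, rfl⟩
    · right
      rw [Set.mem_iUnion]
      exact ⟨⟨X w, hv⟩, rfl⟩
  have h2 : P (⋃ v : {v : ι → ℤ // v ∉ V}, {w | X w = v}) = 0 := measure_iUnion_null fun v => h0 v.1 v.2
  have hp : ∀ v, 0 ≤ probability f (fun u => u = v) := by
    intro v
    unfold probability
    rw [← hS]
    refine sum_nonneg fun i hi => hnn i ?_
    simp only [mem_filter] at hi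
    exact hi.1
  calc P {w | Bad (X w)} ≤ P (⋃ v ∈ V.filter Bad, {w | X w = v}) + P (⋃ v : {v : ι → ℤ // v ∉ V}, {w | X w = v}) :=
        (measure_mono hsub).trans (measure_union_le _ _)
    _ = P (⋃ v ∈ V.filter Bad, {w | X w = v}) := by rw [h2, add_zero]
    _ ≤ ∑ v ∈ V.filter Bad, P {w | X w = v} := measure_biUnion_finset_le _ _
    _ = ∑ v ∈ V.filter Bad, ENNReal.ofReal (probability f fun u => u = v) := sum_congr rfl fun v _ => h v
    _ = ENNReal.ofReal (∑ v ∈ V.filter Bad, probability f fun u => u = v) :=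
        (ENNReal.ofReal_sum_of_nonneg fun v _ => hp v).symm
    _ = ENNReal.ofReal (probability f Bad) := by
        congr 1
        have h3 : probability f Bad = ∑ i ∈ S.filter (fun i => Bad fun l => (f l).val (i l)), ∏ l, (f l).wt (i l) := by
          unfold probability
          rw [← hS]
        rw [h3, ← sum_fiberwise_of_maps_to (s := S.filter fun i => Bad fun l => (f l).val (i l)) (t := V.filter Bad)
          (g := fun i l => (f l).val (i l)) (f := fun i => ∏ l, (f l).wt (i l)) (fun i hi => by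
            rw [mem_filter] at hi
            rw [mem_filter, hV, mem_image]
            exact ⟨⟨i, hi.1, rfl⟩, hi.2⟩)]
        refine sum_congr rfl fun v hv => ?_
        unfold probability
        rw [← hS, filter_filter]
        refine sum_congr ?_ fun _ _ => rfl
        ext i
        simp only [mem_filter]
        constructor
        · rintro ⟨h1, h2⟩
          exact ⟨h1, by rw [h2]; exact (mem_filter.1 hv).2, h2⟩
        · rintro ⟨h1, -, h2⟩
          exact ⟨h1, h2⟩

/-- The sizes of the members number `i` of the sequence are at least `(i + 1) ^ A`, and their logarithms are at most the power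
`1 / A` of a common lower bound. -/
def Growing {ι : Type} (A : ℝ) (f : ℕ → ι → Fam) : Prop :=
  ∃ Y : ℕ → ℝ, ∀ᶠ i : ℕ in atTop, ((i : ℝ) + 1) ^ A ≤ Y i ∧ ∀ l, Y i ≤ (f i l).size ∧ (f i l).size ≤ Real.exp (Y i ^ (1 / A))

/-- **All but finitely many members are good, almost surely.** -/
theorem eventually_good {ι : Type} [Fintype ι] (F : ι → ℤ → Set Fam) (hF : ∀ l, Kind (F l)) {κ : ι → ℤ} (hκ : ∀ l, κ l ≠ 0)
    {e : ℕ} {ρ : ℝ} (hρ : 0 < ρ) {A : ℝ} (hA : 4 / ρ + 2 * e / ρ ≤ A) {Bad : (ι → ℤ) → Prop} {Y₀ : ℝ}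
    (hb : ∀ Y : ℝ, Y₀ ≤ Y → ∀ f : ι → Fam, (∀ l, f l ∈ F l (κ l)) → (∀ l, Y ≤ (f l).size) →
      probability f Bad ≤ Y ^ (-ρ) * ∑ l, (1 + |Real.log (f l).size|) ^ e)
    {Ω : Type} [MeasurableSpace Ω] (P : Measure Ω) (X : ℕ → Ω → ι → ℤ) (f : ℕ → ι → Fam) (hf : ∀ i l, f i l ∈ F l (κ l))
    (hX : ∀ i, HasLaw P (X i) (f i)) (hg : Growing A f) : ∀ᵐ w ∂P, ∀ᶠ i in atTop, ¬ Bad (X i w) := by
  classical
  have he : (0 : ℝ) ≤ e := Nat.cast_nonneg e
  have hA0 : 0 < A := lt_of_lt_of_le (by positivity) hA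
  obtain ⟨Y, hY⟩ := hg
  have hYinf : Tendsto (fun i : ℕ => ((i : ℝ) + 1) ^ A) atTop atTop :=
    (tendsto_rpow_atTop hA0).comp (tendsto_atTop_add_const_right _ _ tendsto_natCast_atTop_atTop)
  obtain ⟨i₀, hi₀⟩ := eventually_atTop.1 (hY.and (hYinf.eventually (eventually_ge_atTop (max 1 Y₀))))
  obtain ⟨C, hC⟩ : ∃ C : ℝ, C = Fintype.card ι * 2 ^ e := ⟨_, rfl⟩
  have hC0 : 0 ≤ C := by rw [hC]; positivity
  have hbound : ∀ i, i₀ ≤ i → probability (f i) Bad ≤ C * ((i : ℝ) + 1) ^ (-(2 : ℝ)) := by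
    intro i hi
    obtain ⟨⟨h1, h2⟩, h3⟩ := hi₀ i hi
    have hY1 : 1 ≤ Y i := ((le_max_left _ _).trans h3).trans h1
    have hY0 : 0 < Y i := by linarith
    have hi1 : (0 : ℝ) < (i : ℝ) + 1 := by positivity
    have h4 := hb (Y i) (((le_max_right _ _).trans h3).trans h1) (f i) (hf i) fun l => (h2 l).1
    refine h4.trans ?_
    have hYA : 1 ≤ Y i ^ (1 / A) := Real.one_le_rpow hY1 (by positivity)
    have h5 : ∀ l, (1 + |Real.log (f i l).size|) ^ e ≤ 2 ^ e * Y i ^ ((e : ℝ) / A) := by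
      intro l
      have hs1 : 1 ≤ (f i l).size := hY1.trans (h2 l).1
      have h6 : |Real.log (f i l).size| ≤ Y i ^ (1 / A) := by
        rw [abs_of_nonneg (Real.log_nonneg hs1)]
        exact (Real.log_le_iff_le_exp (by linarith)).2 (h2 l).2
      calc (1 + |Real.log (f i l).size|) ^ e ≤ (2 * Y i ^ (1 / A)) ^ e :=
            pow_le_pow_left₀ (by positivity) (by linarith) e
        _ = 2 ^ e * Y i ^ ((e : ℝ) / A) := by
            rw [mul_pow, ← Real.rpow_natCast (Y i ^ (1 / A)), ← Real.rpow_mul hY0.le]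
            congr 2
            ring
    calc Y i ^ (-ρ) * ∑ l, (1 + |Real.log (f i l).size|) ^ e ≤ Y i ^ (-ρ) * ∑ _l : ι, 2 ^ e * Y i ^ ((e : ℝ) / A) :=
          mul_le_mul_of_nonneg_left (sum_le_sum fun l _ => h5 l) (by positivity)
      _ = C * Y i ^ (-ρ + (e : ℝ) / A) := by
          rw [sum_const, card_univ, nsmul_eq_mul, Real.rpow_add hY0, hC]
          ring
      _ ≤ C * (((i : ℝ) + 1) ^ A) ^ (-ρ + (e : ℝ) / A) := by
          apply mul_le_mul_of_nonneg_left _ hC0
          refine Real.rpow_le_rpow_of_nonpos (by positivity) h1 ?_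
          have h7 : (e : ℝ) / A ≤ ρ / 2 := by
            rw [div_le_iff₀ hA0]
            have h8 : 2 * e / ρ ≤ A := le_trans (by have : 0 < 4 / ρ := by positivity
                                                    linarith) hA
            rw [div_le_iff₀ hρ] at h8
            linarith
          linarith
      _ = C * ((i : ℝ) + 1) ^ (-(A * ρ) + e) := by
          rw [← Real.rpow_mul hi1.le]
          congr 2
          field_simp
      _ ≤ _ := by
          apply mul_le_mul_of_nonneg_left _ hC0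
          apply Real.rpow_le_rpow_of_exponent_le (by
            have : (0 : ℝ) ≤ i := Nat.cast_nonneg i
            linarith)
          have h8 : (4 / ρ + 2 * e / ρ) * ρ ≤ A * ρ := mul_le_mul_of_nonneg_right hA hρ.le
          rw [add_mul, div_mul_cancel₀ _ hρ.ne', div_mul_cancel₀ _ hρ.ne'] at h8
          linarith
  have hsum : Summable fun i : ℕ => C * ((i : ℝ) + 1) ^ (-(2 : ℝ)) := by
    apply Summable.mul_left
    have h1 : Summable fun i : ℕ => 1 / ((i : ℝ)) ^ (2 : ℝ) := Real.summable_one_div_nat_rpow.2 (by norm_num)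
    have h2 := (summable_nat_add_iff 1).2 h1
    refine h2.congr fun i => ?_
    rw [Real.rpow_neg (by positivity)]
    push_cast
    rw [one_div]
  have hs2 : Summable fun i : ℕ => C * (((i + i₀ : ℕ) : ℝ) + 1) ^ (-(2 : ℝ)) := (summable_nat_add_iff i₀).2 hsum
  have h9 : (∑' i : ℕ, P {w | Bad (X (i + i₀) w)}) ≠ ⊤ := by
    have h10 : (∑' i : ℕ, ENNReal.ofReal (C * (((i + i₀ : ℕ) : ℝ) + 1) ^ (-(2 : ℝ)))) ≠ ⊤ := by
      rw [← ENNReal.ofReal_tsum_of_nonneg (fun i => by positivity) hs2]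
      exact ENNReal.ofReal_ne_top
    refine ne_top_of_le_ne_top h10 (ENNReal.tsum_le_tsum fun i => ?_)
    refine (meas_bad (hX (i + i₀)) (fun l => kind_nonneg (hF l) (hκ l) (hf (i + i₀) l)) Bad).trans ?_
    exact ENNReal.ofReal_le_ofReal (hbound (i + i₀) (Nat.le_add_left _ _))
  filter_upwards [ae_eventually_notMem h9] with w hw
  rw [eventually_atTop] at hw ⊢
  obtain ⟨n, hn⟩ := hw
  refine ⟨n + i₀, fun i hi => ?_⟩
  have h11 := hn (i - i₀) (by omega)
  rw [Nat.sub_add_cancel (by omega : i₀ ≤ i)] at h11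
  exact h11

end Pool.Agent.T3h87.SS
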