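import Pool.Agent.T3h87.SS.Rare

/-!
# The probability is monotone
-/

set_option autoImplicit false

namespace Pool.Agent.T3h87.SS

open Pool.Agent.T3h87.LT (Fam Kind)

lemma probability_mono {ι : Type} [Fintype ι] (f : ι → Fam) (hw : ∀ l, ∀ i ∈ (f l).set, 0 ≤ (f l).wt i) {Bad Bad' : (ι → ℤ) → Prop}
    (h : ∀ v, Bad v → Bad' v) : probability f Bad ≤ probability f Bad' := by
  classical
  unfold probability
  refine (Finset.sum_le_sum_of_subset_of_nonneg ?_ fun i hi _ => ?_)
  · intro i hi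
    rw [Finset.mem_filter] at hi ⊢
    exact ⟨hi.1, h _ hi.2⟩
  · exact Finset.prod_nonneg fun l _ => hw l _ (Fintype.mem_piFinset.1 (Finset.mem_of_mem_filter i hi) l)

end Pool.Agent.T3h87.SS
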