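import Pool.Agent.T3h87.SS.Hit
import Pool.Agent.T3h87.SS.Bc
import Pool.Agent.T3h87.SS.Mono
import Pool.Agent.N455.PR.Null

/-!
# Thin sets of all number fields avoid almost all members of sparse families
-/

set_option autoImplicit false

namespace Pool.Agent.T3h87.SS

open Polynomial MeasureTheory Filter Topology
open Pool.Agent.N455.PR (e1 e1_bij ev_e1 nf_to_rat rat_to_int)
open Pool.Agent.N455.HT (IsRt ev ev_X)
open Pool.Agent.TH783.CE (Thin)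
open Pool.Agent.T3h87.LT (Fam Kind)

theorem thin_sparse (F : Unit → ℤ → Set Fam) (hF : ∀ l, Kind (F l)) :
    ∃ (e : ℕ) (ρ : ℝ), 0 < ρ ∧ ∀ κ : Unit → ℤ, (∀ l, κ l ≠ 0) → ∀ (K : Type) [Field K] [NumberField K] (D : Set K), Thin D →
    ∃ Y₀ : ℝ, 1 ≤ Y₀ ∧ ∀ Y : ℝ, Y₀ ≤ Y → ∀ f : Unit → Fam, (∀ l, f l ∈ F l (κ l)) → (∀ l, Y ≤ (f l).size) →
      probability f (fun v => ((v () : ℤ) : K) ∈ D) ≤ Y ^ (-ρ) * ∑ l, (1 + |Real.log (f l).size|) ^ e := by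
  classical
  obtain ⟨e, ρ, hρ, H⟩ := hit_sparse F hF
  refine ⟨e, ρ, hρ, fun κ hκ K _ _ D hD => ?_⟩
  obtain ⟨A, hA, G, hG, hroot, hcov⟩ := hD
  obtain ⟨H', hH, hHr, Fs, hFs, hF'⟩ := nf_to_rat K G hG hroot
  obtain ⟨Q, hQ, hQr, hQ'⟩ := rat_to_int H' hH hHr
  have hA' : {m : ℤ | (m : K) ∈ A}.Finite := hA.preimage Int.cast_injective.injOn
  obtain ⟨S, hS⟩ : ∃ S : Finset ℤ, S = (hA'.union hFs).toFinset := ⟨_, rfl⟩
  obtain ⟨t, ht⟩ : ∃ t : MvPolynomial Unit ℤ, t = ∏ m ∈ S, (MvPolynomial.X () - MvPolynomial.C m) := ⟨_, rfl⟩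
  have ht0 : t ≠ 0 := by
    rw [ht]
    refine Finset.prod_ne_zero_iff.2 fun m _ h0 => ?_
    have := congrArg (MvPolynomial.eval fun _ => m + 1) h0
    simp at this
  obtain ⟨Y₀, hY₀, J⟩ := H κ hκ (Q.map e1) t (hQ.map _) (by
    intro a ha
    obtain ⟨b, rfl⟩ := e1_bij.2 a
    rw [eval_map_apply] at ha
    exact hQr b (e1_bij.1 (by rw [ha, map_zero]))) ht0
  refine ⟨Y₀, hY₀, fun Y hY f hf hsz => le_trans ?_ (J Y hY f hf hsz)⟩
  have key : ∀ v : Unit → ℤ, v () ∈ S → ev v t = 0 := by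
    intro v hv
    rw [ht, map_prod]
    refine Finset.prod_eq_zero hv ?_
    rw [map_sub, ev_X]
    unfold ev
    simp
  refine probability_mono f (fun l => kind_nonneg (hF l) (hκ l) (hf l)) fun v hv => ?_
  rcases hcov _ hv with h | ⟨x, hx⟩
  · right
    refine key v ?_
    rw [hS, Set.Finite.mem_toFinset]
    exact Or.inl h
  · rcases hF' (v ()) x hx with h | ⟨y, hy⟩
    · right
      refine key v ?_
      rw [hS, Set.Finite.mem_toFinset]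
      exact Or.inr h
    · left
      obtain ⟨a, ha⟩ := hQ' (v ()) y hy
      refine ⟨a, ?_⟩
      unfold IsRt
      have hv' : v = fun _ : Unit => v () := funext fun _ => rfl
      rw [hv', Polynomial.map_map, ev_e1]
      exact ha

theorem thin_ae (F : Unit → ℤ → Set Fam) (hF : ∀ l, Kind (F l)) {κ : Unit → ℤ} (hκ : ∀ l, κ l ≠ 0) {e : ℕ} {ρ : ℝ} (hρ : 0 < ρ)
    {A : ℝ} (hA : 4 / ρ + 2 * e / ρ ≤ A)
    (H : ∀ (K : Type) [Field K] [NumberField K] (D : Set K), Thin D → ∃ Y₀ : ℝ, 1 ≤ Y₀ ∧ ∀ Y : ℝ, Y₀ ≤ Y → ∀ f : Unit → Fam,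
      (∀ l, f l ∈ F l (κ l)) → (∀ l, Y ≤ (f l).size) →
      probability f (fun v => ((v () : ℤ) : K) ∈ D) ≤ Y ^ (-ρ) * ∑ l, (1 + |Real.log (f l).size|) ^ e)
    {Ω : Type} [MeasurableSpace Ω] (P : Measure Ω) (X : ℕ → Ω → Unit → ℤ) (f : ℕ → Unit → Fam) (hf : ∀ i l, f i l ∈ F l (κ l))
    (hX : ∀ i, HasLaw P (X i) (f i)) (hg : Growing A f) :
    ∀ᵐ w ∂P, ∀ (K : Type) [Field K] [NumberField K] (D : Set K), Thin D → ∀ᶠ i in atTop, ((X i w () : ℤ) : K) ∉ D := by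
  have hc1 : Countable ℚ[X] := by
    rw [← Cardinal.mk_le_aleph0_iff]
    exact Polynomial.cardinalMk_le_max.trans (by simp)
  have hc2 : Countable ℚ[X][X] := by
    rw [← Cardinal.mk_le_aleph0_iff]
    exact Polynomial.cardinalMk_le_max.trans (by simp)
  have k1 : ∀ q : ℚ[X][X], ∀ᵐ w ∂P, (q.Monic ∧ ∀ g, q.eval g ≠ 0) →
      ∀ᶠ i in atTop, ¬ ∃ y : ℚ, q.evalEval ((X i w () : ℤ) : ℚ) y = 0 := by
    intro q
    by_cases hq : q.Monic ∧ ∀ g, q.eval g ≠ 0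
    · have hthin : Thin {x : ℚ | ∃ y : ℚ, q.evalEval x y = 0} := ⟨∅, Set.finite_empty, q, hq.1, hq.2, fun t ht => Or.inr ht⟩
      obtain ⟨Y₀, -, J⟩ := H ℚ _ hthin
      filter_upwards [eventually_good F hF hκ hρ hA J P X f hf hX hg] with w hw _
      exact hw
    · exact Eventually.of_forall fun w h => absurd h hq
  have k2 : ∀ m : ℤ, ∀ᵐ w ∂P, ∀ᶠ i in atTop, X i w () ≠ m := by
    intro m
    obtain ⟨Y₀, -, J⟩ := H ℚ {(m : ℚ)} (Thin.of_finite (Set.finite_singleton _))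
    filter_upwards [eventually_good F hF hκ hρ hA J P X f hf hX hg] with w hw
    filter_upwards [hw] with i hi h
    exact hi (by rw [h]; rfl)
  filter_upwards [ae_all_iff.2 k1, ae_all_iff.2 k2] with w w1 w2 K _ _ D hD
  obtain ⟨A', hA', G, hG, hroot, hcov⟩ := hD
  obtain ⟨H', hH, hHr, Fs, hFs, hF'⟩ := nf_to_rat K G hG hroot
  have hfin : ({m : ℤ | (m : K) ∈ A'} ∪ Fs).Finite := (hA'.preimage Int.cast_injective.injOn).union hFs
  have e1 : ∀ᶠ i in atTop, ∀ m ∈ {m : ℤ | (m : K) ∈ A'} ∪ Fs, X i w () ≠ m := (eventually_all_finite hfin).2 fun m _ => w2 m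
  filter_upwards [e1, w1 H' ⟨hH, hHr⟩] with i i1 i2 hiD
  rcases hcov _ hiD with h | ⟨x, hx⟩
  · exact i1 _ (Or.inl h) rfl
  · rcases hF' (X i w ()) x hx with h | h
    · exact i1 _ (Or.inr h) rfl
    · exact i2 h

end Pool.Agent.T3h87.SS
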