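import Pool.Agent.T3h87.SS.Bc
import Pool.Agent.T3h87.SS.Mono

/-!
# One random integer
-/

set_option autoImplicit false

namespace Pool.Agent.T3h87.SS

open MeasureTheory Filter Topology
open Pool.Agent.T3h87.LT (Fam Kind)

open Classical in
/-- The probability that the value of the random integer `f` has the property `B`. -/
noncomputable def prob (f : Fam) (B : ℤ → Prop) : ℝ := ∑ i ∈ f.set.filter (fun i => B (f.val i)), f.wt i

lemma probability_unit (f : Fam) (B : ℤ → Prop) : probability (fun _ : Unit => f) (fun v => B (v ())) = prob f B := by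
  classical
  unfold probability prob
  refine Finset.sum_nbij' (fun i => i ()) (fun x _ => x) ?_ ?_ ?_ ?_ ?_
  · intro i hi
    rw [Finset.mem_filter] at hi
    rw [Finset.mem_filter]
    exact ⟨(@Fintype.mem_piFinset _ (fun a b => Classical.propDecidable (a = b)) _ _ _ _).1 hi.1 (), hi.2⟩
  · intro x hx
    rw [Finset.mem_filter] at hx
    rw [Finset.mem_filter]
    exact ⟨(@Fintype.mem_piFinset _ (fun a b => Classical.propDecidable (a = b)) _ _ _ _).2 fun _ => hx.1, hx.2⟩
  · intro i _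
    funext u
    rfl
  · intro x _
    rfl
  · intro i _
    simp

/-- The random integer `X` has the distribution of `f`. -/
def Law {Ω : Type} [MeasurableSpace Ω] (P : Measure Ω) (X : Ω → ℤ) (f : Fam) : Prop :=
  ∀ v : ℤ, P {w | X w = v} = ENNReal.ofReal (prob f fun u => u = v)

lemma Law.hasLaw {Ω : Type} [MeasurableSpace Ω] {P : Measure Ω} {X : Ω → ℤ} {f : Fam} (h : Law P X f) :
    HasLaw P (fun w (_ : Unit) => X w) (fun _ => f) := by
  intro v
  have e1 : {w | (fun (_ : Unit) => X w) = v} = {w | X w = v ()} := by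
    ext w
    exact ⟨fun h => congrFun h (), fun h => funext fun _ => h⟩
  have e2 : (fun u : Unit → ℤ => u = v) = fun u => u () = v () := by
    funext u
    exact propext ⟨fun h => congrFun h (), fun h => funext fun _ => h⟩
  rw [e1, e2, probability_unit f (fun t => t = v ())]
  exact h (v ())

lemma log_absorb (e : ℕ) (ρ : ℝ) (hρ : 0 < ρ) : ∃ S₀ : ℝ, 1 ≤ S₀ ∧ ∀ s : ℝ, S₀ ≤ s → s ^ (-ρ) * (1 + |Real.log s|) ^ e ≤ s ^ (-(ρ / 2)) := by
  have hpos : (0 : ℝ) < ρ / (2 * ((e : ℝ) + 1)) / 2 := by positivity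
  have h1 := (isLittleO_log_rpow_atTop hpos).bound (show (0 : ℝ) < 1 by norm_num)
  have h2 : Tendsto (fun s : ℝ => s ^ (ρ / (2 * ((e : ℝ) + 1)) / 2)) atTop atTop := tendsto_rpow_atTop hpos
  obtain ⟨S, hS⟩ := eventually_atTop.1 ((h1.and (h2.eventually (eventually_ge_atTop 2))).and (eventually_ge_atTop 1))
  refine ⟨max S 1, le_max_right _ _, fun s hs => ?_⟩
  obtain ⟨⟨k1, k2⟩, k3⟩ := hS s ((le_max_left _ _).trans hs)
  have hs0 : 0 < s := by linarith
  have hl : 0 ≤ Real.log s := Real.log_nonneg k3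
  rw [Real.norm_of_nonneg hl, Real.norm_of_nonneg (by positivity), one_mul] at k1
  obtain ⟨a, ha⟩ : ∃ a : ℝ, a = s ^ (ρ / (2 * ((e : ℝ) + 1)) / 2) := ⟨_, rfl⟩
  rw [← ha] at k1 k2
  have h3 : 1 + |Real.log s| ≤ a ^ 2 := by
    rw [abs_of_nonneg hl]
    nlinarith
  have h4 : (1 + |Real.log s|) ^ e ≤ s ^ (ρ / 2) := by
    calc (1 + |Real.log s|) ^ e ≤ (a ^ 2) ^ e := pow_le_pow_left₀ (by positivity) h3 e
      _ ≤ (a ^ 2) ^ (e + 1) := pow_le_pow_right₀ (by nlinarith) (by omega)
      _ = s ^ (ρ / 2) := by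
          rw [← pow_mul, ha, ← Real.rpow_natCast, ← Real.rpow_mul hs0.le]
          congr 1
          push_cast
          field_simp
  calc s ^ (-ρ) * (1 + |Real.log s|) ^ e ≤ s ^ (-ρ) * s ^ (ρ / 2) := mul_le_mul_of_nonneg_left h4 (by positivity)
    _ = s ^ (-(ρ / 2)) := by
        rw [← Real.rpow_add hs0]
        congr 1
        ring

lemma growing_of (A : ℝ) (hA : 0 < A) (f : ℕ → Fam) (h : ∀ᶠ i : ℕ in atTop, ((i : ℝ) + 1) ^ A ≤ (f i).size) :
    Growing A (fun i (_ : Unit) => f i) := by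
  refine ⟨fun i => (f i).size, ?_⟩
  have h1 := (isLittleO_log_rpow_atTop (show (0 : ℝ) < 1 / A by positivity)).bound (show (0 : ℝ) < 1 by norm_num)
  obtain ⟨S, hS⟩ := eventually_atTop.1 (h1.and (eventually_ge_atTop 1))
  have h2 : Tendsto (fun i : ℕ => ((i : ℝ) + 1) ^ A) atTop atTop :=
    (tendsto_rpow_atTop hA).comp (tendsto_atTop_add_const_right _ _ tendsto_natCast_atTop_atTop)
  filter_upwards [h, h2.eventually (eventually_ge_atTop S)] with i h3 h4
  obtain ⟨k1, k2⟩ := hS (f i).size (h4.trans h3)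
  have hs0 : 0 < (f i).size := by linarith
  rw [Real.norm_of_nonneg (Real.log_nonneg k2), Real.norm_of_nonneg (by positivity), one_mul] at k1
  refine ⟨h3, fun _ => ⟨le_rfl, ?_⟩⟩
  rw [← Real.log_le_iff_le_exp hs0]
  exact k1

end Pool.Agent.T3h87.SS
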