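import Pool.Agent.T3h87.SS.Bc
import Pool.Agent.T3h87.SS.Fields

/-!
# Random sequences of vectors with varying conditions; one null set for all number fields in the complex numbers
-/

set_option autoImplicit false

namespace Pool.Agent.T3h87.SS

open Finset Filter MeasureTheory
open Pool.Agent.T3h87.LT (Fam Kind)

/-- **All but finitely many members are good, almost surely.** -/
theorem eventually_good_seq {ι : Type} [Fintype ι] (F : ι → ℤ → Set Fam) (hF : ∀ l, Kind (F l)) {κ : ι → ℤ} (hκ : ∀ l, κ l ≠ 0)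
    {e : ℕ} {ρ : ℝ} (hρ : 0 < ρ) {A : ℝ} (hA : 4 / ρ + 2 * e / ρ ≤ A) {Bad : ℕ → (ι → ℤ) → Prop} {Y₀ : ℝ}
    (hb : ∀ (i : ℕ) (Y : ℝ), Y₀ ≤ Y → ((i : ℝ) + 1) ^ A ≤ Y → ∀ f : ι → Fam, (∀ l, f l ∈ F l (κ l)) → (∀ l, Y ≤ (f l).size) →
      probability f (Bad i) ≤ Y ^ (-ρ) * ∑ l, (1 + |Real.log (f l).size|) ^ e)
    {Ω : Type} [MeasurableSpace Ω] (P : Measure Ω) (X : ℕ → Ω → ι → ℤ) (f : ℕ → ι → Fam) (hf : ∀ i l, f i l ∈ F l (κ l))
    (hX : ∀ i, HasLaw P (X i) (f i)) (hg : Growing A f) : ∀ᵐ w ∂P, ∀ᶠ i in atTop, ¬ Bad i (X i w) := by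
  classical
  have he : (0 : ℝ) ≤ e := Nat.cast_nonneg e
  have hA0 : 0 < A := lt_of_lt_of_le (by positivity) hA
  obtain ⟨Y, hY⟩ := hg
  have hYinf : Tendsto (fun i : ℕ => ((i : ℝ) + 1) ^ A) atTop atTop :=
    (tendsto_rpow_atTop hA0).comp (tendsto_atTop_add_const_right _ _ tendsto_natCast_atTop_atTop)
  obtain ⟨i₀, hi₀⟩ := eventually_atTop.1 (hY.and (hYinf.eventually (eventually_ge_atTop (max 1 Y₀))))
  obtain ⟨C, hC⟩ : ∃ C : ℝ, C = Fintype.card ι * 2 ^ e := ⟨_, rfl⟩
  have hC0 : 0 ≤ C := by rw [hC]; positivity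
  have hbound : ∀ i, i₀ ≤ i → probability (f i) (Bad i) ≤ C * ((i : ℝ) + 1) ^ (-(2 : ℝ)) := by
    intro i hi
    obtain ⟨⟨h1, h2⟩, h3⟩ := hi₀ i hi
    have hY1 : 1 ≤ Y i := ((le_max_left _ _).trans h3).trans h1
    have hY0 : 0 < Y i := by linarith
    have hi1 : (0 : ℝ) < (i : ℝ) + 1 := by positivity
    have h4 := hb i (Y i) (((le_max_right _ _).trans h3).trans h1) h1 (f i) (hf i) fun l => (h2 l).1
    refine h4.trans ?_
    have hYA : 1 ≤ Y i ^ (1 / A) := Real.one_le_rpow hY1 (by positivity)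
    have h5 : ∀ l, (1 + |Real.log (f i l).size|) ^ e ≤ 2 ^ e * Y i ^ ((e : ℝ) / A) := by
      intro l
      have hs1 : 1 ≤ (f i l).size := hY1.trans (h2 l).1
      have h6 : |Real.log (f i l).size| ≤ Y i ^ (1 / A) := by
        rw [abs_of_nonneg (Real.log_nonneg hs1)]
        exact (Real.log_le_iff_le_exp (by linarith)).2 (h2 l).2
      calc (1 + |Real.log (f i l).size|) ^ e ≤ (2 * Y i ^ (1 / A)) ^ e :=
            pow_le_pow_left₀ (by positivity) (by linarith) e
        _ = 2 ^ e * Y i ^ ((e : ℝ) / A) := by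
            rw [mul_pow, ← Real.rpow_natCast (Y i ^ (1 / A)), ← Real.rpow_mul hY0.le]
            congr 2
            ring
    calc Y i ^ (-ρ) * ∑ l, (1 + |Real.log (f i l).size|) ^ e ≤ Y i ^ (-ρ) * ∑ _l : ι, 2 ^ e * Y i ^ ((e : ℝ) / A) :=
          mul_le_mul_of_nonneg_left (sum_le_sum fun l _ => h5 l) (by positivity)
      _ = C * Y i ^ (-ρ + (e : ℝ) / A) := by
          rw [sum_const, card_univ, nsmul_eq_mul, Real.rpow_add hY0, hC]
          ring
      _ ≤ C * (((i : ℝ) + 1) ^ A) ^ (-ρ + (e : ℝ) / A) := by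
          apply mul_le_mul_of_nonneg_left _ hC0
          refine Real.rpow_le_rpow_of_nonpos (by positivity) h1 ?_
          have h7 : (e : ℝ) / A ≤ ρ / 2 := by
            rw [div_le_iff₀ hA0]
            have h8 : 2 * e / ρ ≤ A := le_trans (by have : 0 < 4 / ρ := by positivity
                                                    linarith) hA
            rw [div_le_iff₀ hρ] at h8
            linarith
          linarith
      _ = C * ((i : ℝ) + 1) ^ (-(A * ρ) + e) := by
          rw [← Real.rpow_mul hi1.le]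
          congr 2
          field_simp
      _ ≤ _ := by
          apply mul_le_mul_of_nonneg_left _ hC0
          apply Real.rpow_le_rpow_of_exponent_le (by
            have : (0 : ℝ) ≤ i := Nat.cast_nonneg i
            linarith)
          have h8 : (4 / ρ + 2 * e / ρ) * ρ ≤ A * ρ := mul_le_mul_of_nonneg_right hA hρ.le
          rw [add_mul, div_mul_cancel₀ _ hρ.ne', div_mul_cancel₀ _ hρ.ne'] at h8
          linarith
  have hsum : Summable fun i : ℕ => C * ((i : ℝ) + 1) ^ (-(2 : ℝ)) := by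
    apply Summable.mul_left
    have h1 : Summable fun i : ℕ => 1 / ((i : ℝ)) ^ (2 : ℝ) := Real.summable_one_div_nat_rpow.2 (by norm_num)
    have h2 := (summable_nat_add_iff 1).2 h1
    refine h2.congr fun i => ?_
    rw [Real.rpow_neg (by positivity)]
    push_cast
    rw [one_div]
  have hs2 : Summable fun i : ℕ => C * (((i + i₀ : ℕ) : ℝ) + 1) ^ (-(2 : ℝ)) := (summable_nat_add_iff i₀).2 hsum
  have h9 : (∑' i : ℕ, P {w | Bad (i + i₀) (X (i + i₀) w)}) ≠ ⊤ := by
    have h10 : (∑' i : ℕ, ENNReal.ofReal (C * (((i + i₀ : ℕ) : ℝ) + 1) ^ (-(2 : ℝ)))) ≠ ⊤ := by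
      rw [← ENNReal.ofReal_tsum_of_nonneg (fun i => by positivity) hs2]
      exact ENNReal.ofReal_ne_top
    refine ne_top_of_le_ne_top h10 (ENNReal.tsum_le_tsum fun i => ?_)
    refine (meas_bad (hX (i + i₀)) (fun l => kind_nonneg (hF l) (hκ l) (hf (i + i₀) l)) (Bad (i + i₀))).trans ?_
    exact ENNReal.ofReal_le_ofReal (hbound (i + i₀) (Nat.le_add_left _ _))
  filter_upwards [ae_eventually_notMem h9] with w hw
  rw [eventually_atTop] at hw ⊢
  obtain ⟨n, hn⟩ := hw
  refine ⟨n + i₀, fun i hi => ?_⟩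
  have h11 := hn (i - i₀) (by omega)
  rw [Nat.sub_add_cancel (by omega : i₀ ≤ i)] at h11
  exact h11

/-- the union bound -/
lemma prob_union {ι τ : Type} [Fintype ι] (f : ι → Fam) (hw : ∀ l, ∀ i ∈ (f l).set, 0 ≤ (f l).wt i) (Q : Finset τ)
    (Bad : τ → (ι → ℤ) → Prop) : probability f (fun v => ∃ q ∈ Q, Bad q v) ≤ ∑ q ∈ Q, probability f (Bad q) := by
  classical
  unfold probability
  have hnn : ∀ i ∈ Fintype.piFinset (fun l => (f l).set), 0 ≤ ∏ l, (f l).wt (i l) := fun i hi =>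
    prod_nonneg fun l _ => hw l _ (Fintype.mem_piFinset.1 hi l)
  refine le_trans ?_ (sum_bu Q (fun q => (Fintype.piFinset fun l => (f l).set).filter (fun i => Bad q fun l => (f l).val (i l)))
    (fun i => ∏ l, (f l).wt (i l)) fun q _ i hi => hnn i (mem_of_mem_filter i hi))
  refine (sum_le_sum_of_subset_of_nonneg ?_ fun i hi _ => ?_).trans (le_of_eq (by congr!))
  · intro i hi
    simp only [mem_filter, mem_biUnion] at hi ⊢
    obtain ⟨h1, q, hq, h2⟩ := hi
    exact ⟨q, hq, h1, h2⟩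
  · simp only [mem_filter, mem_biUnion] at hi
    obtain ⟨q, -, h1, -⟩ := hi
    exact hnn i h1

/-- almost surely, for all number fields in the complex numbers and all data in a countable set at the same time -/
theorem ae_all_complex {Ω : Type} [MeasurableSpace Ω] (P : Measure Ω) (T : Type) [Countable T]
    (G : IntermediateField ℚ ℂ → T → ℕ → Ω → Prop)
    (hG : ∀ E : IntermediateField ℚ ℂ, FiniteDimensional ℚ E → ∀ t : T, ∀ᵐ w ∂P, ∀ᶠ i in atTop, G E t i w) :
    ∀ᵐ w ∂P, ∀ E : IntermediateField ℚ ℂ, FiniteDimensional ℚ E → ∀ t : T, ∀ᶠ i in atTop, G E t i w := by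
  have hc : Countable {x : ℂ // IsAlgebraic ℚ x} := Set.countable_coe_iff.2 (Algebraic.countable ℚ ℂ)
  have h1 : ∀ S : Finset {x : ℂ // IsAlgebraic ℚ x}, ∀ᵐ w ∂P,
      FiniteDimensional ℚ (IntermediateField.adjoin ℚ (Subtype.val '' (S : Set {x : ℂ // IsAlgebraic ℚ x}))) →
      ∀ t : T, ∀ᶠ i in atTop, G (IntermediateField.adjoin ℚ (Subtype.val '' (S : Set {x : ℂ // IsAlgebraic ℚ x}))) t i w := by
    intro S
    by_cases hfd : FiniteDimensional ℚ (IntermediateField.adjoin ℚ (Subtype.val '' (S : Set {x : ℂ // IsAlgebraic ℚ x})))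
    · filter_upwards [ae_all_iff.2 fun t : T => hG _ hfd t] with w hw _ t
      exact hw t
    · exact Eventually.of_forall fun w h => absurd h hfd
  filter_upwards [ae_all_iff.2 h1] with w hw E hE
  obtain ⟨S, hS⟩ : E.FG := by
    refine IntermediateField.fg_of_fg_toSubalgebra E ?_
    rw [Subalgebra.fg_iff_finiteType]
    have : FiniteDimensional ℚ E.toSubalgebra := hE
    infer_instance
  have halg : ∀ x ∈ S, IsAlgebraic ℚ x := by
    intro x hx
    have hxE : x ∈ E := by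
      rw [← hS]
      exact IntermediateField.subset_adjoin ℚ _ hx
    have h2 : IsAlgebraic ℚ (⟨x, hxE⟩ : E) := Algebra.IsAlgebraic.isAlgebraic _
    exact (isAlgebraic_algebraMap_iff (FaithfulSMul.algebraMap_injective E ℂ)).2 h2
  classical
  obtain ⟨S', hS'⟩ : ∃ S' : Finset {x : ℂ // IsAlgebraic ℚ x}, S' = S.attach.image fun x => ⟨x.1, halg x.1 x.2⟩ := ⟨_, rfl⟩
  have e : Subtype.val '' (S' : Set {x : ℂ // IsAlgebraic ℚ x}) = (S : Set ℂ) := by
    rw [hS']
    ext x
    simp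
    exact halg x
  have h3 := hw S'
  rw [e, hS] at h3
  exact h3 hE

end Pool.Agent.T3h87.SS
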