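import Pool.Agent.N455.HT.Dens
import Pool.Agent.T3h87.SS.Bc2
import Pool.Agent.T3h87.SS.Supply

/-!
# Hilbert's irreducibility theorem with a power saving for sparse families
-/

set_option autoImplicit false

namespace Pool.Agent.T3h87.SS

open Finset Filter Polynomial NumberField Topology
open Pool.Agent.T3h87.LT (Fam Kind)
open Pool.Agent.N455.HT (NR IsRt isRt_iff dens_lower zeros_le ev ev_X hom_eq_ev hc_le)
open Pool.Agent.H921R2.TatePole (hc)
open Pool.Agent.W401.Cheb (pr M M_add M_smul M_one pit_M mem_pr tendsto_pc)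

section
variable {ι : Type} [Fintype ι] [DecidableEq ι]

/-- **A positive proportion of the residues has no root, modulo a positive proportion of the primes.** -/
theorem dense_NR {P : (MvPolynomial ι ℤ)[X]} (hP : P.Monic) (hd : 2 ≤ P.natDegree) (hirr : Irreducible P) :
    ∃ c : ℝ, 0 < c ∧ Dense {p : ℕ | c * (p : ℝ) ^ Fintype.card ι ≤ ((NR P p).ncard : ℝ)} := by
  classical
  obtain ⟨L₁, i₁, n₁, L₂, i₂, n₂, B, p₀, hB, h⟩ := dens_lower hP hd hirr
  have hD : (0 : ℝ) < P.natDegree := by exact_mod_cast (by omega : 0 < P.natDegree)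
  obtain ⟨a, ha⟩ : ∃ a : ℝ, a = 1 / P.natDegree := ⟨_, rfl⟩
  have ha0 : 0 < a := by rw [ha]; positivity
  rw [← ha] at h
  obtain ⟨φ, hφ⟩ : ∃ φ : ℕ → ℝ, φ = fun p => (1 + (-1) * Pool.Agent.W401.Cheb.hc L₁ p) + a * Pool.Agent.W401.Cheb.hc L₂ p := ⟨_, rfl⟩
  have hlim : Tendsto (M φ) atTop (𝓝 a) := by
    have h1 : Tendsto (fun N => (M (fun _ => (1 : ℝ)) N + (-1) * M (Pool.Agent.W401.Cheb.hc L₁) N) +
        a * M (Pool.Agent.W401.Cheb.hc L₂) N) atTop (𝓝 ((1 + (-1) * 1) + a * 1)) :=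
      (M_one.add ((pit_M L₁).const_mul _)).add ((pit_M L₂).const_mul _)
    have e : ((1 + (-1) * 1) + a * 1 : ℝ) = a := by ring
    rw [e] at h1
    refine h1.congr fun N => ?_
    rw [hφ, M_add, M_add, M_smul, M_smul]
  obtain ⟨C, hC⟩ : ∃ C : ℝ, C = 1 + a * Module.finrank ℚ L₂ := ⟨_, rfl⟩
  have hC0 : 0 < C := by rw [hC]; positivity
  have hφC : ∀ p : ℕ, p.Prime → φ p ≤ C := by
    intro p hp
    have h1 := hc_le L₂ ⟨p, hp⟩
    have h2 : Pool.Agent.W401.Cheb.hc L₂ p ≤ Module.finrank ℚ L₂ := h1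
    have h3 : 0 ≤ Pool.Agent.W401.Cheb.hc L₁ p := Nat.cast_nonneg _
    rw [hφ, hC]
    have := mul_le_mul_of_nonneg_left h2 ha0.le
    simp only
    linarith
  -- the threshold
  have t1 : Tendsto (fun x : ℕ => B * (x : ℝ) ^ (-(1 / 2 : ℝ))) atTop (𝓝 (B * 0)) :=
    ((tendsto_rpow_neg_atTop (by norm_num : (0 : ℝ) < 1 / 2)).comp tendsto_natCast_atTop_atTop).const_mul B
  rw [mul_zero] at t1
  obtain ⟨p₁, hp₁⟩ := eventually_atTop.1 (t1.eventually (gt_mem_nhds (by positivity : 0 < a / 4)))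
  obtain ⟨U, hU⟩ : ∃ U : Set ℕ, U = {p : ℕ | a / 4 * (p : ℝ) ^ Fintype.card ι ≤ ((NR P p).ncard : ℝ)} := ⟨_, rfl⟩
  have hgood : ∀ p : ℕ, p.Prime → p₀ ≤ p → p₁ ≤ p → a / 2 ≤ φ p → p ∈ U := by
    intro p hp h0 h1 h2
    have h3 := h p hp h0
    have h4 := hp₁ p h1
    have h5 : φ p = 1 - (hc (𝓞 L₁) p : ℝ) + a * hc (𝓞 L₂) p := by
      rw [hφ]
      show (1 + (-1) * (Nat.card (𝓞 L₁ →+* ZMod p) : ℝ)) + a * (Nat.card (𝓞 L₂ →+* ZMod p) : ℝ) = _
      unfold hc
      ring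
    rw [hU]
    show a / 4 * (p : ℝ) ^ Fintype.card ι ≤ ((NR P p).ncard : ℝ)
    have hp0 : (0 : ℝ) < (p : ℝ) ^ Fintype.card ι := by
      have : (0 : ℝ) < p := by exact_mod_cast hp.pos
      positivity
    rw [← le_div_iff₀ hp0]
    refine le_trans ?_ h3
    rw [← h5]
    linarith
  refine ⟨a / 4, by positivity, ?_⟩
  rw [← hU]
  have e1 : ∀ᶠ N : ℕ in atTop, 3 * a / 4 < M φ N := hlim.eventually (lt_mem_nhds (by linarith))
  refine ⟨a / (8 * C), by positivity, ?_⟩
  filter_upwards [e1, tendsto_pc.eventually_ge_atTop ((8 * C / a) * (p₀ + p₁ : ℕ) + 1 : ℝ)] with N hN1 hN2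
  have hq0 : (0 : ℝ) ≤ (8 * C / a) * (p₀ + p₁ : ℕ) := by positivity
  have hpos : (0 : ℝ) < Nat.primeCounting N := by linarith
  unfold M at hN1
  rw [lt_div_iff₀ hpos] at hN1
  obtain ⟨G, hG⟩ : ∃ G : Finset ℕ, G = (pr N).filter (fun p => a / 2 ≤ φ p) := ⟨_, rfl⟩
  have hpr : ((pr N).card : ℝ) = Nat.primeCounting N := by
    unfold pr
    rw [Nat.primeCounting, Nat.primeCounting', Nat.count_eq_card_filter_range]
  have h6 : ∑ p ∈ pr N, φ p ≤ C * G.card + a / 2 * Nat.primeCounting N := by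
    rw [← Finset.sum_filter_add_sum_filter_not (pr N) (fun p => a / 2 ≤ φ p), ← hG]
    refine add_le_add ?_ ?_
    · calc ∑ p ∈ G, φ p ≤ ∑ _p ∈ G, C := sum_le_sum fun p hp => hφC p (mem_pr.1 (mem_filter.1 (hG ▸ hp)).1).2
        _ = C * G.card := by rw [sum_const, nsmul_eq_mul, mul_comm]
    · calc ∑ p ∈ (pr N).filter (fun p => ¬ a / 2 ≤ φ p), φ p ≤ ∑ _p ∈ (pr N).filter (fun p => ¬ a / 2 ≤ φ p), a / 2 :=
            sum_le_sum fun p hp => (not_le.1 (mem_filter.1 hp).2).le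
        _ ≤ a / 2 * Nat.primeCounting N := by
            rw [sum_const, nsmul_eq_mul, mul_comm, ← hpr]
            apply mul_le_mul_of_nonneg_left _ (by positivity)
            exact_mod_cast card_filter_le _ _
  have h7 : a / 4 * Nat.primeCounting N ≤ C * G.card := by linarith
  obtain ⟨G', hG'⟩ : ∃ G' : Finset ℕ, G' = G.filter (fun p => p₀ ≤ p ∧ p₁ ≤ p) := ⟨_, rfl⟩
  have h8 : G.card ≤ G'.card + (p₀ + p₁) := by
    have h9 : G ⊆ G' ∪ range (p₀ + p₁) := by
      intro p hp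
      rw [mem_union, mem_range, hG', mem_filter]
      by_cases h10 : p₀ ≤ p ∧ p₁ ≤ p
      · exact Or.inl ⟨hp, h10⟩
      · right
        omega
    refine (card_le_card h9).trans ((card_union_le _ _).trans ?_)
    rw [card_range]
  have h11 : (G'.card : ℝ) ≤ (Nat.card {l : ℕ // l ≤ N ∧ l.Prime ∧ l ∈ U} : ℝ) := by
    have hfin : Finite {l : ℕ // l ≤ N ∧ l.Prime ∧ l ∈ U} :=
      Set.Finite.subset (Set.finite_Iic N) fun l hl => hl.1
    have hsub : ∀ s ∈ G', s ≤ N ∧ s.Prime ∧ s ∈ U := by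
      intro s hs
      rw [hG', mem_filter, hG, mem_filter, mem_pr] at hs
      exact ⟨hs.1.1.1, hs.1.1.2, hgood _ hs.1.1.2 hs.2.1 hs.2.2 hs.1.2⟩
    have h12 : Nat.card G' ≤ Nat.card {l : ℕ // l ≤ N ∧ l.Prime ∧ l ∈ U} := by
      refine Nat.card_le_card_of_injective (fun s : G' => ⟨s.1, hsub _ s.2⟩) ?_
      intro s t hst
      exact Subtype.ext (Subtype.mk.inj hst)
    rw [Nat.card_eq_fintype_card, Fintype.card_coe] at h12
    exact_mod_cast h12
  refine le_trans ?_ h11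
  have h13 : (G.card : ℝ) ≤ G'.card + (p₀ + p₁ : ℕ) := by exact_mod_cast h8
  have h14 : C * (G.card : ℝ) ≤ C * (G'.card + (p₀ + p₁ : ℕ)) := mul_le_mul_of_nonneg_left h13 hC0.le
  have h15 : C * ((p₀ + p₁ : ℕ) : ℝ) ≤ a / 8 * Nat.primeCounting N := by
    have h16 : (8 * C / a) * ((p₀ + p₁ : ℕ) : ℝ) ≤ Nat.primeCounting N := by linarith
    have h17 := mul_le_mul_of_nonneg_left h16 (by positivity : 0 ≤ a / 8)
    have e2 : a / 8 * (8 * C / a * ((p₀ + p₁ : ℕ) : ℝ)) = C * ((p₀ + p₁ : ℕ) : ℝ) := by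
      field_simp
    linarith
  rw [div_mul_eq_mul_div, div_le_iff₀ (by positivity)]
  nlinarith

theorem dense_univ : Dense (Set.univ : Set ℕ) :=
  (dense_hom ℚ 1 one_pos).mono fun _ _ => trivial

theorem ev_redz {p : ℕ} (c : ι → ℤ) : ev (fun i => (c i : ZMod p)) = (Int.castRingHom (ZMod p)).comp (ev c) := by
  rw [hom_eq_ev ((Int.castRingHom (ZMod p)).comp (ev c))]
  congr 1
  funext i
  rw [RingHom.comp_apply, ev_X]
  rfl

theorem isRt_redz {P : (MvPolynomial ι ℤ)[X]} {c : ι → ℤ} {a : ℤ} (h : IsRt P c a) (p : ℕ) :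
    IsRt P (fun i => (c i : ZMod p)) (a : ZMod p) := by
  rw [isRt_iff] at h ⊢
  have h1 := congrArg (Int.castRingHom (ZMod p)) h
  rw [hom_eval₂, map_zero, ← ev_redz] at h1
  exact h1

theorem isRt_prod {l : List (MvPolynomial ι ℤ)[X]} {v : ι → ℤ} {a : ℤ} (h : IsRt l.prod v a) : ∃ Q ∈ l, IsRt Q v a := by
  induction l with
  | nil =>
    unfold IsRt at h
    rw [List.prod_nil, Polynomial.map_one, eval_one] at h
    exact absurd h one_ne_zero
  | cons Q l ih =>
    unfold IsRt at h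
    rw [List.prod_cons, Polynomial.map_mul, eval_mul] at h
    rcases mul_eq_zero.1 h with h | h
    · exact ⟨Q, List.mem_cons_self, h⟩
    · obtain ⟨R, hR, hR'⟩ := ih h
      exact ⟨R, List.mem_cons_of_mem _ hR, hR'⟩

/-- the irreducible factors -/
theorem factor_monic : ∀ (m : ℕ) (P : (MvPolynomial ι ℤ)[X]), P.natDegree = m → P.Monic → (∀ a, P.eval a ≠ 0) →
    ∃ l : List (MvPolynomial ι ℤ)[X], (∀ Q ∈ l, Q.Monic ∧ 2 ≤ Q.natDegree ∧ Irreducible Q) ∧ P = l.prod := by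
  intro m
  induction m using Nat.strong_induction_on with
  | _ m ih =>
    intro P hPm hP hroot
    by_cases h0 : P.natDegree = 0
    · have h1 : P = 1 := eq_one_of_monic_natDegree_zero hP h0
      exact ⟨[], by simp, by rw [h1, List.prod_nil]⟩
    · have hnu : ¬ IsUnit P := fun h => h0 (natDegree_eq_zero_of_isUnit h)
      obtain ⟨Q, hQ, R, hR⟩ := WfDvdMonoid.exists_irreducible_factor hnu hP.ne_zero
      have hlc : Q.leadingCoeff * R.leadingCoeff = 1 := by
        rw [← leadingCoeff_mul, ← hR]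
        exact hP
      obtain ⟨Q', hQ'⟩ : ∃ Q', Q' = Q * C R.leadingCoeff := ⟨_, rfl⟩
      obtain ⟨R', hR'⟩ : ∃ R', R' = R * C Q.leadingCoeff := ⟨_, rfl⟩
      have hQm : Q'.Monic := by
        unfold Polynomial.Monic
        rw [hQ', leadingCoeff_mul, leadingCoeff_C, hlc]
      have hRm : R'.Monic := by
        unfold Polynomial.Monic
        rw [hR', leadingCoeff_mul, leadingCoeff_C, mul_comm, hlc]
      have hPQR : P = Q' * R' := by
        rw [hR, hQ', hR']
        have : C R.leadingCoeff * C Q.leadingCoeff = (1 : (MvPolynomial ι ℤ)[X]) := by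
          rw [← C_mul, mul_comm, hlc, C_1]
        calc Q * R = Q * R * (C R.leadingCoeff * C Q.leadingCoeff) := by rw [this, mul_one]
          _ = _ := by ring
      have hQi : Irreducible Q' := by
        have hu : IsUnit (C R.leadingCoeff : (MvPolynomial ι ℤ)[X]) := by
          refine Polynomial.isUnit_C.2 ?_
          exact IsUnit.of_mul_eq_one Q.leadingCoeff (by rw [mul_comm]; exact hlc)
        rw [hQ', irreducible_mul_isUnit hu]
        exact hQ
      have hQr : ∀ a, Q'.eval a ≠ 0 := by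
        intro a ha
        apply hroot a
        rw [hPQR, eval_mul, ha, zero_mul]
      have hQd : 2 ≤ Q'.natDegree := by
        by_contra hlt
        have h1 : Q'.natDegree = 0 ∨ Q'.natDegree = 1 := by omega
        rcases h1 with h1 | h1
        · have h2 : Q' = 1 := eq_one_of_monic_natDegree_zero hQm h1
          exact hQi.not_isUnit (by rw [h2]; exact isUnit_one)
        · have h2 := hQm.eq_X_add_C h1
          apply hQr (-(Q'.coeff 0))
          rw [h2]
          simp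
      have hdeg : Q'.natDegree + R'.natDegree = P.natDegree := by
        rw [hPQR, hQm.natDegree_mul hRm]
      obtain ⟨l, hl, hl'⟩ := ih R'.natDegree (by omega) R' rfl hRm (by
        intro a ha
        apply hroot a
        rw [hPQR, eval_mul, ha, mul_zero])
      refine ⟨Q' :: l, fun S hS => ?_, by rw [List.prod_cons, ← hl', hPQR]⟩
      rcases List.mem_cons.1 hS with rfl | hS
      · exact ⟨hQm, hQd, hQi⟩
      · exact hl S hS

/-- **Hilbert's irreducibility theorem for sparse families.** -/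
theorem hit_sparse (F : ι → ℤ → Set Fam) (hF : ∀ l, Kind (F l)) :
    ∃ (e : ℕ) (ρ : ℝ), 0 < ρ ∧ ∀ κ : ι → ℤ, (∀ l, κ l ≠ 0) → ∀ (P : (MvPolynomial ι ℤ)[X]) (t : MvPolynomial ι ℤ), P.Monic →
      (∀ a, P.eval a ≠ 0) → t ≠ 0 →
    ∃ Y₀ : ℝ, 1 ≤ Y₀ ∧ ∀ Y : ℝ, Y₀ ≤ Y → ∀ f : ι → Fam, (∀ l, f l ∈ F l (κ l)) → (∀ l, Y ≤ (f l).size) →
      probability f (fun v => (∃ a : ℤ, IsRt P v a) ∨ ev v t = 0) ≤ Y ^ (-ρ) * ∑ l, (1 + |Real.log (f l).size|) ^ e := by
  classical
  obtain ⟨e, ρ, hρ, H⟩ := rare_sieve F hF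
  refine ⟨e, ρ, hρ, fun κ hκ P t hP hroot ht => ?_⟩
  obtain ⟨l, hl, hPl⟩ := factor_monic P.natDegree P rfl hP hroot
  let σ : Type := {Q // Q ∈ l.toFinset}
  have hfin : Fintype σ := inferInstance
  have hone : ∀ s : σ, ∃ c : ℝ, 0 < c ∧ Dense {p : ℕ | c * (p : ℝ) ^ Fintype.card ι ≤ ((NR s.1 p).ncard : ℝ)} := fun s => by
    obtain ⟨h1, h2, h3⟩ := hl s.1 (List.mem_toFinset.1 s.2)
    exact dense_NR h1 h2 h3
  choose c hc hU using hone
  obtain ⟨c₀, hc₀⟩ : ∃ c₀ : ℝ, c₀ = 1 / (∑ s, 1 / c s + 2) := ⟨_, rfl⟩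
  have hs0 : 0 ≤ ∑ s, 1 / c s := sum_nonneg fun s _ => by have := hc s; positivity
  have hc₀0 : 0 < c₀ := by rw [hc₀]; positivity
  have hc₀1 : ∀ s, c₀ ≤ c s := by
    intro s
    have h1 : 1 / c s ≤ ∑ s, 1 / c s + 2 := by
      have := single_le_sum (f := fun s => 1 / c s) (fun s _ => by have := hc s; positivity) (mem_univ s)
      linarith
    rw [hc₀]
    have h2 := one_div_le_one_div_of_le (by have := hc s; positivity) h1
    rwa [one_div_one_div] at h2
  have hc₀2 : c₀ ≤ 1 / 2 := by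
    rw [hc₀]
    exact one_div_le_one_div_of_le (by norm_num) (by linarith)
  obtain ⟨p₀, hp₀⟩ := zeros_le t ht
  obtain ⟨Y₀, hY₀, J⟩ := H κ hκ (Option σ) inferInstance
    (fun s => s.elim Set.univ fun s => {p : ℕ | c s * (p : ℝ) ^ Fintype.card ι ≤ ((NR s.1 p).ncard : ℝ)})
    (fun s => by
      rcases s with _ | s
      · exact dense_univ
      · exact hU s) c₀ hc₀0 (p₀ + 2 * t.totalDegree)
  refine ⟨Y₀, hY₀, fun Y hY f hf hsz => ?_⟩
  refine J (fun s q => s.elim {v | ev v t ≠ 0} fun s => NR s.1 q) ∅ _ Y hY ?_ (fun s q hq hqU hq0 _ => ?_) (fun v hv hbad => ?_) f hf hsz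
  · rw [card_empty, Nat.cast_zero]
    have : (0 : ℝ) < Y := by linarith
    positivity
  · have hF' : Fact q.Prime := ⟨hq⟩
    have hq1 : (0 : ℝ) < q := by exact_mod_cast hq.pos
    rcases s with _ | s
    · simp only [Option.elim_none]
      have h1 := hp₀ q (by omega)
      have h2 : Nat.card {v : ι → ZMod q // ev v t = 0} = {v : ι → ZMod q | ev v t = 0}.ncard := rfl
      have h3 : ({v : ι → ZMod q | ev v t = 0}.ncard : ℝ) ≤ 1 / 2 * (q : ℝ) ^ Fintype.card ι := by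
        rw [h2] at h1
        have h4 : (t.totalDegree : ℝ) ≤ 1 / 2 * q := by
          have : 2 * t.totalDegree ≤ q := by omega
          have : (2 * t.totalDegree : ℝ) ≤ q := by exact_mod_cast this
          linarith
        have h5 : (0 : ℝ) < (q : ℝ) ^ Fintype.card ι := by positivity
        refine le_of_mul_le_mul_right (h1.trans ?_) hq1
        nlinarith
      have h4 : {v : ι → ZMod q | ev v t ≠ 0}.ncard + {v : ι → ZMod q | ev v t = 0}.ncard = q ^ Fintype.card ι := by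
        have h5 := Set.ncard_add_ncard_compl {v : ι → ZMod q | ev v t = 0}
        have h6 : Nat.card (ι → ZMod q) = q ^ Fintype.card ι := by
          rw [Nat.card_eq_fintype_card, Fintype.card_fun, ZMod.card]
        rw [h6] at h5
        rw [add_comm]
        exact h5
      have h5 : (({v : ι → ZMod q | ev v t ≠ 0}.ncard : ℕ) : ℝ) + ({v : ι → ZMod q | ev v t = 0}.ncard : ℝ) =
          (q : ℝ) ^ Fintype.card ι := by exact_mod_cast h4
      have h6 : c₀ * (q : ℝ) ^ Fintype.card ι ≤ 1 / 2 * (q : ℝ) ^ Fintype.card ι :=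
        mul_le_mul_of_nonneg_right hc₀2 (by positivity)
      linarith
    · simp only [Option.elim_some] at hqU ⊢
      exact (mul_le_mul_of_nonneg_right (hc₀1 s) (by positivity)).trans hqU
  · rcases hbad with ⟨a, ha⟩ | h0
    · rw [hPl] at ha
      obtain ⟨Q, hQ, hQa⟩ := isRt_prod ha
      obtain ⟨q, -, -, -, -, hmem⟩ := hv (some ⟨Q, List.mem_toFinset.2 hQ⟩)
      exact hmem _ (isRt_redz hQa q)
    · obtain ⟨q, -, -, -, -, hmem⟩ := hv none
      apply hmem
      rw [ev_redz, RingHom.comp_apply, h0, map_zero]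

end

end Pool.Agent.T3h87.SS
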