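import Pool.Agent.T3h87.SS.Tests
import Pool.Agent.T3h87.SS.Fields
import Pool.Agent.Y160.T6.All

/-!
# The sieve for sparse families: superelliptic surfaces with many sections
-/

set_option autoImplicit false

namespace Pool.Agent.T3h87.SS

open Finset Filter MeasureTheory
open Pool.Agent.T3h87.LT (Fam Kind)
open Pool.Agent.Y160.SL (ManyWorks)
open Pool.Agent.Y160.T6 (CntT TU TH TC TP TR TS cU cH cC cP cR cS works_of)

lemma freq_of_cnt {p R N : ℕ} {T : ∀ (F : Type) [Field F], (Fin N → F) → Prop} (h : CntT p R N T) : Freq (p * R) N T := by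
  obtain ⟨K₀, N₀, h⟩ := h
  refine ⟨K₀, N₀, fun l _ hl hN => ?_⟩
  have h1 := h (ZMod l) (by rw [ZMod.card]; exact (Dvd.intro _ rfl).trans hl)
    (by rw [ZMod.card]; exact (Dvd.intro_left _ rfl).trans hl) (by rw [ZMod.card]; exact hN)
  rwa [ZMod.card] at h1

/-- the indices of the tests -/
abbrev MI (p n : ℕ) : Type := Fin 3 ⊕ (Fin n ⊕ ((Fin n × (Fin n → Fin p)) ⊕ (Fin n → Fin p)))

/-- the tests -/
def mtest (p q n D r R : ℕ) : MI p n → ∀ (F : Type) [Field F], (Fin (n + (D + (r + 2))) → F) → Prop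
  | Sum.inl 0 => TU R n D r
  | Sum.inl 1 => TH q R n D r
  | Sum.inl 2 => TC n D r
  | Sum.inr (Sum.inl i) => TP R n D r i
  | Sum.inr (Sum.inr (Sum.inl x)) => TR p n D r x.1 x.2
  | Sum.inr (Sum.inr (Sum.inr ε)) => TS p q n D r ε

/-- the conditions on the parameters -/
def Admissible (p s n D r R : ℕ) : Prop :=
  p.Prime ∧ 0 < n ∧ 2 ≤ D ∧ n ≤ r + 1 ∧ p ^ (s + 1) * r < n + D ∧ p.Coprime (n + D) ∧ Odd R ∧ p.Coprime R

theorem mtest_freq {p s n D r R : ℕ} (h : Admissible p s n D r R) (t : MI p n) :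
    Freq (p * R) (n + (D + (r + 2))) (mtest p (p ^ (s + 1)) n D r R t) := by
  obtain ⟨hp, hn, hD, hnr, hqr, hcop, hR, hpR⟩ := h
  have hq0 : 0 < p ^ (s + 1) := Nat.pow_pos hp.pos
  have hcop' : (p ^ (s + 1)).Coprime (R * (n + D)) := (hpR.mul_right hcop).pow_left _
  rcases t with t | t | t | t
  · fin_cases t
    · exact freq_of_cnt (cU hD hR)
    · exact freq_of_cnt (cH (Pool.Agent.Y971.EN.irr2 Pool.Agent.Y100.EN.t_irr1) hn hD hR hq0 hnr hqr hcop')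
    · exact freq_of_cnt cC
  · exact freq_of_cnt (cP hR t)
  · exact freq_of_cnt (cR Pool.Agent.Y430.EN.t_R hp hD t.1 t.2)
  · exact freq_of_cnt (cS Pool.Agent.Y737.EN.t_S hp hD hq0 hqr t)

theorem many_rare (n D r : ℕ) (F : Fin (n + (D + (r + 2))) → ℤ → Set Fam) (hF : ∀ l, Kind (F l)) :
    ∃ (e : ℕ) (ρ : ℝ), 0 < ρ ∧ ∀ κ : Fin (n + (D + (r + 2))) → ℤ, (∀ l, κ l ≠ 0) →
      ∀ (k : Type) [Field k] [NumberField k] (p s R : ℕ) (ζ η : k), Admissible p s n D r R → IsPrimitiveRoot ζ (p ^ (s + 1)) →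
      η ^ p = -1 → ∃ Y₀ : ℝ, 1 ≤ Y₀ ∧ ∀ Y : ℝ, Y₀ ≤ Y → ∀ f : Fin (n + (D + (r + 2))) → Fam, (∀ l, f l ∈ F l (κ l)) →
      (∀ l, Y ≤ (f l).size) →
      probability f (fun v => ¬ ManyWorks p (p ^ (s + 1)) n D r R k v) ≤ Y ^ (-ρ) * ∑ l, (1 + |Real.log (f l).size|) ^ e := by
  obtain ⟨e, ρ, hρ, H⟩ := rare_tests F hF
  refine ⟨e, ρ, hρ, fun κ hκ k _ _ p s R ζ η h hζ hη => ?_⟩
  have h' := h
  obtain ⟨hp, hn, hD, hnr, hqr, hcop, hR, hpR⟩ := h'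
  obtain ⟨Y₀, hY₀, J⟩ := H κ hκ k (p * R) (Nat.mul_pos hp.pos hR.pos) (MI p n) inferInstance (mtest p (p ^ (s + 1)) n D r R)
    (mtest_freq h)
  refine ⟨Y₀, hY₀, J _ fun v hv hbad => hbad ?_⟩
  exact works_of Pool.Agent.Y833.EN.st_cond hp rfl hn hD hqr hcop hR hpR hζ hη (hv (Sum.inl 0)) (hv (Sum.inl 1)) (hv (Sum.inl 2))
    (fun i => hv (Sum.inr (Sum.inl i))) (fun i ε => hv (Sum.inr (Sum.inr (Sum.inl (i, ε)))))
    (fun ε => hv (Sum.inr (Sum.inr (Sum.inr ε))))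

end Pool.Agent.T3h87.SS
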