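import Pool.Agent.T3h87.SS.Bc2
import Pool.Agent.T3h87.SS.Mono
import Pool.Agent.N578.LB.Main

/-!
# The sieve for sparse families: coefficients of Weil polynomials
-/

set_option autoImplicit false

namespace Pool.Agent.T3h87.SS

open Finset Filter Polynomial
open Pool.Agent.T3h87.LT (Fam Kind)
open Pool.Agent.W521.Frob Pool.Agent.W521.Descent Pool.Agent.W521.Density
  Pool.Agent.W521.Count Pool.Agent.W521.Turan Pool.Agent.W521.Sieve Pool.Agent.W521.Bad
  Pool.Agent.W521.Total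
open Pool.Agent.W484.TB (GoodU flip_of_not_set)
open Pool.Agent.N578.LB (aff pull mem_pull card_pull primeFactors_card)

variable {I : Type} [Fintype I] [DecidableEq I] (g : I → ℕ)

/-- **Exceptional points of sparse families.** -/
theorem weil_rare (hg : ∀ i, 0 < g i) (F : (Σ i, Fin (g i)) → ℤ → Set Fam) (hF : ∀ l, Kind (F l)) :
    ∃ (e : ℕ) (ρ : ℝ), 0 < ρ ∧ ∀ κ : (Σ i, Fin (g i)) → ℤ, (∀ l, κ l ≠ 0) → ∀ U : Set ℕ, Pool.Agent.W484.TB.Dense U →
    ∃ Y₀ : ℝ, 1 ≤ Y₀ ∧ ∀ Y : ℝ, Y₀ ≤ Y → ∀ q : ℕ, IsPrimePow q → ∀ A : Matrix (Σ i, Fin (g i)) (Σ i, Fin (g i)) ℤ, A.det ≠ 0 →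
      (A.det.natAbs.primeFactors.card : ℝ) ≤ Y ^ ρ → ∀ (a : (Σ i, Fin (g i)) → ℤ) (f : (Σ i, Fin (g i)) → Fam),
      (∀ l, f l ∈ F l (κ l)) → (∀ l, Y ≤ (f l).size) →
      probability f (fun y => (∀ i, ¬ (q : ℤ) ∣ (polys g (aff A a y) i).nextCoeff ^ 2) ∧ ¬ GoodU U g q (aff A a y)) ≤
        Y ^ (-(2 * ρ)) * ∑ l, (1 + |Real.log (f l).size|) ^ e := by
  classical
  obtain ⟨e, ρ, hρ, H⟩ := rare_sieve F hF
  refine ⟨e, ρ / 2, by positivity, fun κ hκ U hU => ?_⟩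
  have hcardι : Fintype.card (Σ i, Fin (g i)) = ∑ i, g i := by
    rw [Fintype.card_sigma]
    simp
  obtain ⟨cF, hcF⟩ : ∃ cF : ℝ, cF = 1 / (∏ i, 4 ^ g i * (g i).factorial : ℕ) := ⟨_, rfl⟩
  obtain ⟨cI, hcI⟩ : ∃ cI : ℝ, cI = 1 / (∏ i, 2 * g i : ℕ) := ⟨_, rfl⟩
  have hcFpos : 0 < cF := by
    have : 0 < (∏ i, 4 ^ g i * (g i).factorial : ℕ) :=
      Finset.prod_pos fun i _ => by positivity
    rw [hcF]
    positivity
  have hcIpos : 0 < cI := by
    have : 0 < (∏ i, 2 * g i : ℕ) := Finset.prod_pos fun i _ => by have := hg i; positivity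
    rw [hcI]
    positivity
  obtain ⟨l₀, hl₀⟩ : ∃ l₀ : ℕ, l₀ = ∑ i, (4 * g i + 12) + 3 := ⟨_, rfl⟩
  have hl₀' : ∀ i l, l₀ ≤ l → 4 * g i + 12 ≤ l := by
    intro i l hl
    have := Finset.single_le_sum (f := fun i => 4 * g i + 12) (fun j _ => Nat.zero_le _)
      (Finset.mem_univ i)
    omega
  obtain ⟨c, hc⟩ : ∃ c : ℝ, c = min cF cI := ⟨_, rfl⟩
  have hcpos : 0 < c := by rw [hc]; exact lt_min hcFpos hcIpos
  have hc1 : c ≤ cF := by rw [hc]; exact min_le_left _ _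
  have hc2 : c ≤ cI := by rw [hc]; exact min_le_right _ _
  obtain ⟨Y₁, hY₁, J⟩ := H κ hκ (I × Bool) inferInstance (fun _ => U) (fun _ => hU) c hcpos l₀
  have t1 : Tendsto (fun Y : ℝ => Y ^ (ρ / 2)) atTop atTop := tendsto_rpow_atTop (by positivity)
  obtain ⟨Y₂, hY₂⟩ := eventually_atTop.1 (t1.eventually (eventually_ge_atTop 2))
  refine ⟨max Y₁ Y₂, hY₁.trans (le_max_left _ _), fun Y hY q hq A hA hAY a f hf hsz => ?_⟩
  have hY1 : Y₁ ≤ Y := (le_max_left _ _).trans hY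
  have hY0 : 0 < Y := by linarith
  have hY2 := hY₂ Y ((le_max_right _ _).trans hY)
  obtain ⟨D, hD⟩ : ∃ D : ℕ, D = q * A.det.natAbs := ⟨_, rfl⟩
  have hD0 : D ≠ 0 := by
    rw [hD]
    exact mul_ne_zero hq.ne_zero (Int.natAbs_ne_zero.2 hA)
  have hS : (D.primeFactors.card : ℝ) ≤ Y ^ ρ := by
    rw [hD]
    have h1 := primeFactors_card hq A.det.natAbs
    have h2 : Y ^ ρ = Y ^ (ρ / 2) * Y ^ (ρ / 2) := by
      rw [← Real.rpow_add hY0]
      congr 1
      ring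
    rw [h2]
    nlinarith
  have hDl : ∀ l : ℕ, l.Prime → l ∉ D.primeFactors → ¬ l ∣ D := fun l hl h1 h2 => h1 (Nat.mem_primeFactors.2 ⟨hl, h2, hD0⟩)
  have hDq : ∀ l : ℕ, ¬ l ∣ D → ¬ l ∣ q := fun l h1 h2 => h1 (by rw [hD]; exact h2.mul_right _)
  have hDA : ∀ l : ℕ, ¬ l ∣ D → ¬ l ∣ A.det.natAbs := fun l h1 h2 => h1 (by rw [hD]; exact h2.mul_left _)
  have e2 : (-(2 * (ρ / 2)) : ℝ) = -ρ := by ring
  rw [e2]
  refine J (fun s l => if s.2 then ↑(pull A a (evF g q s.1) l) else ↑(pull A a (evI g s.1) l)) D.primeFactors _ Y hY1 hS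
    (fun s l hl hlU hl0 hlS => ?_) (fun v hv hbad => ?_) f hf hsz
  · have hlD := hDl l hl hlS
    have : Fact l.Prime := ⟨hl⟩
    rcases s with ⟨i, b⟩
    rcases b with _ | _
    · simp only [Bool.false_eq_true, if_false]
      rw [Set.ncard_coe_finset, card_pull A a (evI g i) l hl (hDA l hlD)]
      have h1 := irrEvent_lower g hg i l (by omega)
      have h2 : evI g i l = irrEvent g i l := by
        unfold evI
        rw [dif_pos hl]
      rw [h2]
      refine (mul_le_mul_of_nonneg_right hc2 (by positivity)).trans ?_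
      rw [hcI, hcardι, one_div, inv_mul_le_iff₀ (by
        have : 0 < (∏ i, 2 * g i : ℕ) := Finset.prod_pos fun i _ => by have := hg i; positivity
        exact_mod_cast this)]
      exact_mod_cast h1
    · simp only [if_true]
      rw [Set.ncard_coe_finset, card_pull A a (evF g q i) l hl (hDA l hlD)]
      have h1 := flipEvent_lower g hg q i l (fun j => hl₀' j l hl0) (hDq l hlD)
      have h2 : evF g q i l = flipEvent g q i l := by
        unfold evF
        rw [dif_pos hl]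
      rw [h2]
      refine (mul_le_mul_of_nonneg_right hc1 (by positivity)).trans ?_
      rw [hcF, hcardι, one_div, inv_mul_le_iff₀ (by
        have : 0 < (∏ i, 4 ^ g i * (g i).factorial : ℕ) :=
          Finset.prod_pos fun i _ => by positivity
        exact_mod_cast this)]
      exact_mod_cast h1
  · refine hbad.2 ⟨fun i => ?_, fun i => ?_, hbad.1⟩
    · obtain ⟨l, hl, hlU, hl0, hlS, hmem⟩ := hv (i, true)
      simp only [if_true] at hmem
      refine flip_of_not_set g U (l₀ := l₀) (by omega) hg fun h => ?_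
      exact h l hl hlU hl0 (hDq l (hDl l hl hlS)) ((mem_pull A a _ l hl v).1 (mem_coe.1 hmem))
    · obtain ⟨l, hl, hlU, hl0, hlS, hmem⟩ := hv (i, false)
      simp only [Bool.false_eq_true, if_false] at hmem
      refine irr_of_not g (l₀ := l₀) (q := q) fun h => ?_
      exact h l hl hl0 (hDq l (hDl l hl hlS)) ((mem_pull A a _ l hl v).1 (mem_coe.1 hmem))

end Pool.Agent.T3h87.SS
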