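import Pool.Agent.T3h87.SS.Sieve

/-!
# The sieve for sparse families: finitely many tests, arbitrary sets of coordinates
-/

set_option autoImplicit false

namespace Pool.Agent.T3h87.SS

open Finset Filter
open Pool.Agent.T3h87.LT (Fam Kind kind_fine)

open Classical in
/-- The probability that the vector with the independent random coordinates `f l` is `Bad`. -/
noncomputable def probability {ι : Type} [Fintype ι] (f : ι → Fam) (Bad : (ι → ℤ) → Prop) : ℝ :=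
  ∑ i ∈ (Fintype.piFinset fun l => (f l).set).filter (fun i => Bad fun l => (f l).val (i l)), ∏ l, (f l).wt (i l)

lemma kind_nonneg {F : ℤ → Set Fam} (hF : Kind F) {κ : ℤ} (hκ : κ ≠ 0) {f : Fam} (hf : f ∈ F κ) : ∀ i ∈ f.set, 0 ≤ f.wt i := by
  obtain ⟨W, e, -, H⟩ := kind_fine hF (1 / 4) (by norm_num) (by norm_num)
  obtain ⟨X₀, J⟩ := H κ hκ
  exact (J X₀ le_rfl f hf).1

/-- the sieve for an arbitrary finite set of coordinates -/
theorem sieve_iota {ι : Type} [Fintype ι] [DecidableEq ι] (F : ι → ℤ → Set Fam) (hF : ∀ l, Kind (F l)) :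
    ∃ (W e : ℕ) (ρ : ℝ), 1 ≤ W ∧ 0 < ρ ∧ ∀ κ : ι → ℤ, (∀ l, κ l ≠ 0) → ∀ U : Set ℕ, Dense U → ∀ c : ℝ, 0 < c → ∀ l₀ : ℕ,
    ∃ X₀ : ℕ, ∀ X : ℕ, X₀ ≤ X → ∀ f : ι → Fam, (∀ l, f l ∈ F l (κ l)) → (∀ l, (X : ℝ) ^ W ≤ (f l).size) →
    ∀ (Ω : ∀ l : ℕ, Set (ι → ZMod l)) (S : Finset ℕ), (S.card : ℝ) ≤ √X →
    (∀ l : ℕ, l.Prime → l ∈ U → l₀ ≤ l → l ∉ S → c * (l : ℝ) ^ (Fintype.card ι) ≤ ((Ω l).ncard : ℝ)) →
    ∀ E : Finset (∀ l, (f l).ι), E ⊆ Fintype.piFinset (fun l => (f l).set) →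
    (∀ i ∈ E, ∀ l : ℕ, l.Prime → l ∈ U → l₀ ≤ l → l ∉ S → l ≤ X → (fun k => ((f k).val (i k) : ZMod l)) ∉ Ω l) →
    ∑ i ∈ E, ∏ l, (f l).wt (i l) ≤ (∑ l, (1 + |Real.log (f l).size|) ^ e) * (X : ℝ) ^ (-ρ) := by
  classical
  let eq : Fin (Fintype.card ι) ≃ ι := (Fintype.equivFin ι).symm
  obtain ⟨W, e, ρ, hW, hρ, H⟩ := sparse_sieve (Fintype.card ι) (fun k => F (eq k)) (fun k => hF _)
  refine ⟨W, e, ρ, hW, hρ, fun κ hκ U hU c hc l₀ => ?_⟩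
  obtain ⟨X₀, J⟩ := H (fun k => κ (eq k)) (fun k => hκ _) U hU c hc l₀
  refine ⟨X₀, fun X hX f hf hsz Ω S hS hΩ E hE hbad => ?_⟩
  let T : (∀ l, (f l).ι) → (∀ k, (f (eq k)).ι) := fun i k => i (eq k)
  have hT : Function.Injective T := by
    intro i j hij
    funext l
    obtain ⟨k, rfl⟩ := eq.surjective l
    exact congrFun hij k
  have h1 := J X hX (fun k => f (eq k)) (fun k => hf _) (fun k => hsz _)
    (fun l => {u | (fun j : ι => u (eq.symm j)) ∈ Ω l}) S hS (fun l hl hlU h0 hlS => by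
      refine (hΩ l hl hlU h0 hlS).trans (le_of_eq ?_)
      congr 1
      let ψ : (Fin (Fintype.card ι) → ZMod l) ≃ (ι → ZMod l) := Equiv.arrowCongr eq (Equiv.refl _)
      have e1 : {u : Fin (Fintype.card ι) → ZMod l | (fun j : ι => u (eq.symm j)) ∈ Ω l} = ψ ⁻¹' (Ω l) := rfl
      rw [e1, Set.ncard_preimage_of_injective_subset_range ψ.injective (by rw [ψ.range_eq_univ]; exact Set.subset_univ _)])
    (E.image T) (by
      intro i' hi'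
      rw [mem_image] at hi'
      obtain ⟨i, hi, rfl⟩ := hi'
      rw [Fintype.mem_piFinset]
      intro k
      exact Fintype.mem_piFinset.1 (hE hi) (eq k)) (by
      intro i' hi' l hl hlU h0 hlS hlX hmem
      rw [mem_image] at hi'
      obtain ⟨i, hi, rfl⟩ := hi'
      refine hbad i hi l hl hlU h0 hlS hlX ?_
      have h2 : (fun j : ι => (((f (eq (eq.symm j))).val (T i (eq.symm j)) : ℤ) : ZMod l)) ∈ Ω l := hmem
      have e2 : (fun j : ι => (((f (eq (eq.symm j))).val (T i (eq.symm j)) : ℤ) : ZMod l)) = fun k => ((f k).val (i k) : ZMod l) := by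
        funext j
        show (((f (eq (eq.symm j))).val (i (eq (eq.symm j))) : ℤ) : ZMod l) = _
        rw [Equiv.apply_symm_apply]
      rwa [e2] at h2)
  rw [sum_image fun i _ j _ h => hT h] at h1
  have e3 : ∀ i, ∏ k, (f (eq k)).wt (T i k) = ∏ l, (f l).wt (i l) := fun i => eq.prod_comp fun l => (f l).wt (i l)
  have e4 : ∑ k, (1 + |Real.log (f (eq k)).size|) ^ e = ∑ l, (1 + |Real.log (f l).size|) ^ e :=
    eq.sum_comp fun l => (1 + |Real.log (f l).size|) ^ e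
  simp only [e3, e4] at h1
  exact h1

lemma sum_bu {α σ : Type} [DecidableEq α] (s : Finset σ) (t : σ → Finset α) (w : α → ℝ) (hw : ∀ x ∈ s, ∀ i ∈ t x, 0 ≤ w i) :
    ∑ i ∈ s.biUnion t, w i ≤ ∑ x ∈ s, ∑ i ∈ t x, w i := by
  classical
  induction s using Finset.induction_on with
  | empty => simp
  | insert a s ha ih =>
    rw [biUnion_insert, sum_insert ha]
    have h1 := sum_union_inter (s₁ := t a) (s₂ := s.biUnion t) (f := w)
    have h2 : 0 ≤ ∑ i ∈ t a ∩ s.biUnion t, w i :=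
      sum_nonneg fun i hi => hw a (mem_insert_self _ _) i (mem_of_mem_inter_left hi)
    have h3 := ih fun x hx => hw x (mem_insert_of_mem hx)
    linarith

/-- **The sieve with finitely many tests.** -/
theorem rare_sieve {ι : Type} [Fintype ι] (F : ι → ℤ → Set Fam) (hF : ∀ l, Kind (F l)) :
    ∃ (e : ℕ) (ρ : ℝ), 0 < ρ ∧ ∀ κ : ι → ℤ, (∀ l, κ l ≠ 0) → ∀ (σ : Type) (_ : Finite σ) (U : σ → Set ℕ), (∀ s, Dense (U s)) →
    ∀ c : ℝ, 0 < c → ∀ l₀ : ℕ, ∃ Y₀ : ℝ, 1 ≤ Y₀ ∧ ∀ (Ω : σ → ∀ l : ℕ, Set (ι → ZMod l)) (S : Finset ℕ) (Bad : (ι → ℤ) → Prop) (Y : ℝ),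
      Y₀ ≤ Y → (S.card : ℝ) ≤ Y ^ ρ →
      (∀ s, ∀ l : ℕ, l.Prime → l ∈ U s → l₀ ≤ l → l ∉ S → c * (l : ℝ) ^ (Fintype.card ι) ≤ ((Ω s l).ncard : ℝ)) →
      (∀ v : ι → ℤ, (∀ s, ∃ l : ℕ, l.Prime ∧ l ∈ U s ∧ l₀ ≤ l ∧ l ∉ S ∧ (fun k => (v k : ZMod l)) ∈ Ω s l) → ¬ Bad v) →
      ∀ f : ι → Fam, (∀ l, f l ∈ F l (κ l)) → (∀ l, Y ≤ (f l).size) →
      probability f Bad ≤ Y ^ (-ρ) * ∑ l, (1 + |Real.log (f l).size|) ^ e := by
  classical
  obtain ⟨W, e, ρ, hW, hρ, H⟩ := sieve_iota F hF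
  have hW0 : (0 : ℝ) < W := by exact_mod_cast (by omega : 0 < W)
  obtain ⟨ρ', hρ'⟩ : ∃ ρ' : ℝ, ρ' = min (ρ / (2 * W)) (1 / (8 * W)) := ⟨_, rfl⟩
  have hρ'0 : 0 < ρ' := by rw [hρ']; positivity
  have hρ'1 : ρ' ≤ ρ / (2 * W) := by rw [hρ']; exact min_le_left _ _
  have hρ'2 : ρ' ≤ 1 / (8 * W) := by rw [hρ']; exact min_le_right _ _
  refine ⟨e, ρ', hρ'0, fun κ hκ σ hσ U hU c hc l₀ => ?_⟩
  have : Fintype σ := Fintype.ofFinite σ
  choose X₁ J using fun s => H κ hκ (U s) (hU s) c hc l₀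
  obtain ⟨X₂, hX₂⟩ : ∃ X₂ : ℕ, X₂ = (∑ s, X₁ s) + 1 := ⟨_, rfl⟩
  have hX₂s : ∀ s, X₁ s ≤ X₂ := fun s => by
    rw [hX₂]
    exact (single_le_sum (f := X₁) (fun _ _ => Nat.zero_le _) (mem_univ s)).trans (Nat.le_succ _)
  -- the threshold
  have t1 : Tendsto (fun Y : ℝ => Y ^ (1 / (W : ℝ))) atTop atTop := tendsto_rpow_atTop (by positivity)
  have t2 : Tendsto (fun Y : ℝ => Y ^ (ρ / (2 * W))) atTop atTop := tendsto_rpow_atTop (by positivity)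
  have t3 : Tendsto (fun Y : ℝ => Y ^ (1 / (4 * (W : ℝ)))) atTop atTop := tendsto_rpow_atTop (by positivity)
  obtain ⟨Y₁, hY₁⟩ := eventually_atTop.1 ((t1.eventually (eventually_ge_atTop ((X₂ : ℝ) + 2))).and
    ((t2.eventually (eventually_ge_atTop (2 ^ ρ * (Fintype.card σ : ℝ)))).and (t3.eventually (eventually_ge_atTop 2))))
  refine ⟨max 1 Y₁, le_max_left _ _, fun Ω S Bad Y hY hS hΩ hBad f hf hsz => ?_⟩
  have hY1 : 1 ≤ Y := (le_max_left _ _).trans hY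
  have hY0 : 0 < Y := by linarith
  obtain ⟨a1, a2, a3⟩ := hY₁ Y ((le_max_right _ _).trans hY)
  obtain ⟨X, hX⟩ : ∃ X : ℕ, X = ⌊Y ^ (1 / (W : ℝ))⌋₊ := ⟨_, rfl⟩
  have hYp : 0 < Y ^ (1 / (W : ℝ)) := by positivity
  have hXle : (X : ℝ) ≤ Y ^ (1 / (W : ℝ)) := by rw [hX]; exact Nat.floor_le hYp.le
  have hXge : Y ^ (1 / (W : ℝ)) / 2 ≤ X := by
    have h1 := Nat.lt_floor_add_one (Y ^ (1 / (W : ℝ)))
    rw [← hX] at h1
    have : (0 : ℝ) ≤ X₂ := Nat.cast_nonneg _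
    linarith
  have hXX : X₂ ≤ X := by
    have h1 := Nat.lt_floor_add_one (Y ^ (1 / (W : ℝ)))
    rw [← hX] at h1
    have h2 : (X₂ : ℝ) ≤ X := by linarith
    exact_mod_cast h2
  have hX0 : (0 : ℝ) < X := by
    have : (1 : ℝ) ≤ X := by exact_mod_cast (by omega : 1 ≤ X)
    linarith
  have hXW : (X : ℝ) ^ W ≤ Y := by
    calc (X : ℝ) ^ W ≤ (Y ^ (1 / (W : ℝ))) ^ W := pow_le_pow_left₀ hX0.le hXle W
      _ = Y := by
        rw [← Real.rpow_natCast, ← Real.rpow_mul hY0.le, one_div, inv_mul_cancel₀ hW0.ne', Real.rpow_one]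
  have hSX : (S.card : ℝ) ≤ √X := by
    refine hS.trans ?_
    apply Real.le_sqrt_of_sq_le
    refine le_trans ?_ hXge
    rw [le_div_iff₀ (by norm_num)]
    have h1 : Y ^ ρ' ≤ Y ^ (1 / (8 * (W : ℝ))) := Real.rpow_le_rpow_of_exponent_le hY1 hρ'2
    have h2 : (Y ^ ρ') ^ 2 ≤ Y ^ (1 / (4 * (W : ℝ))) := by
      calc (Y ^ ρ') ^ 2 ≤ (Y ^ (1 / (8 * (W : ℝ)))) ^ 2 := pow_le_pow_left₀ (by positivity) h1 2
        _ = Y ^ (1 / (4 * (W : ℝ))) := by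
          rw [← Real.rpow_natCast, ← Real.rpow_mul hY0.le]
          congr 1
          field_simp
          norm_num
    have h3 : Y ^ (1 / (W : ℝ)) = Y ^ (1 / (4 * (W : ℝ))) * (Y ^ (1 / (4 * (W : ℝ))) * (Y ^ (1 / (4 * (W : ℝ))) * Y ^ (1 / (4 * (W : ℝ))))) := by
      rw [← Real.rpow_add hY0, ← Real.rpow_add hY0, ← Real.rpow_add hY0]
      congr 1
      field_simp
      norm_num
    rw [h3]
    have h4 : (0 : ℝ) < Y ^ (1 / (4 * (W : ℝ))) := by positivity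
    have h5 : (2 : ℝ) ≤ Y ^ (1 / (4 * (W : ℝ))) * (Y ^ (1 / (4 * (W : ℝ))) * Y ^ (1 / (4 * (W : ℝ)))) := by nlinarith
    have h6 := mul_le_mul h2 h5 (by norm_num) h4.le
    linarith
  obtain ⟨L, hL⟩ : ∃ L, L = ∑ l, (1 + |Real.log (f l).size|) ^ e := ⟨_, rfl⟩
  have hL0 : 0 ≤ L := by rw [hL]; exact sum_nonneg fun l _ => by positivity
  obtain ⟨Es, hEs⟩ : ∃ Es : σ → Finset (∀ l, (f l).ι), Es = fun s => (Fintype.piFinset fun l => (f l).set).filter (fun i =>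
      ∀ l : ℕ, l.Prime → l ∈ U s → l₀ ≤ l → l ∉ S → (fun k => ((f k).val (i k) : ZMod l)) ∉ Ω s l) := ⟨_, rfl⟩
  have hone : ∀ s, ∑ i ∈ Es s, ∏ l, (f l).wt (i l) ≤ L * (X : ℝ) ^ (-ρ) := by
    intro s
    rw [hL]
    refine J s X ((hX₂s s).trans hXX) f hf (fun l => hXW.trans (hsz l)) (Ω s) S hSX (hΩ s) (Es s) ?_ ?_
    · rw [hEs]
      exact filter_subset _ _
    · intro i hi l hl hlU h0 hlS _
      rw [hEs, mem_filter] at hi
      exact hi.2 l hl hlU h0 hlS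
  have hnn : ∀ i ∈ Fintype.piFinset (fun l => (f l).set), 0 ≤ ∏ l, (f l).wt (i l) := fun i hi =>
    prod_nonneg fun l _ => kind_nonneg (hF l) (hκ l) (hf l) _ (Fintype.mem_piFinset.1 hi l)
  have hsub : (Fintype.piFinset fun l => (f l).set).filter (fun i => Bad fun l => (f l).val (i l)) ⊆ univ.biUnion Es := by
    intro i hi
    rw [mem_filter] at hi
    by_contra hcon
    refine hBad _ (fun s => ?_) hi.2
    by_contra hs
    push Not at hs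
    apply hcon
    rw [mem_biUnion]
    refine ⟨s, mem_univ _, ?_⟩
    rw [hEs, mem_filter]
    exact ⟨hi.1, fun l h1 h2 h3 h4 => hs l h1 h2 h3 h4⟩
  have hsum : probability f Bad ≤ Fintype.card σ * (L * (X : ℝ) ^ (-ρ)) := by
    unfold probability
    have h1 : ∀ i ∈ univ.biUnion Es, 0 ≤ ∏ l, (f l).wt (i l) := by
      intro i hi
      rw [mem_biUnion] at hi
      obtain ⟨s, -, hi⟩ := hi
      rw [hEs, mem_filter] at hi
      exact hnn i hi.1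
    calc ∑ i ∈ (Fintype.piFinset fun l => (f l).set).filter (fun i => Bad fun l => (f l).val (i l)), ∏ l, (f l).wt (i l) ≤
        ∑ i ∈ univ.biUnion Es, ∏ l, (f l).wt (i l) := by
          refine (sum_le_sum_of_subset_of_nonneg hsub fun i hi _ => h1 i hi).trans (le_of_eq ?_)
          congr!
      _ ≤ ∑ s, ∑ i ∈ Es s, ∏ l, (f l).wt (i l) := by
          refine sum_bu univ Es _ fun s _ i hi => ?_
          rw [hEs, mem_filter] at hi
          exact hnn i hi.1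
      _ ≤ ∑ _s : σ, L * (X : ℝ) ^ (-ρ) := sum_le_sum fun s _ => hone s
      _ = _ := by rw [sum_const, card_univ, nsmul_eq_mul]
  refine hsum.trans ?_
  rw [← hL]
  have h7 : (X : ℝ) ^ (-ρ) ≤ 2 ^ ρ * Y ^ (-(ρ / W)) := by
    calc (X : ℝ) ^ (-ρ) ≤ (Y ^ (1 / (W : ℝ)) / 2) ^ (-ρ) :=
          Real.rpow_le_rpow_of_nonpos (by positivity) hXge (by linarith)
      _ = 2 ^ ρ * Y ^ (-(ρ / W)) := by
          rw [Real.div_rpow hYp.le (by norm_num), ← Real.rpow_mul hY0.le, Real.rpow_neg (by norm_num : (0 : ℝ) ≤ 2), div_inv_eq_mul, mul_comm]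
          congr 2
          ring
  have h8 : Y ^ (-(ρ / W)) * Y ^ (ρ / (2 * W)) = Y ^ (-(ρ / (2 * W))) := by
    rw [← Real.rpow_add hY0]
    congr 1
    field_simp
    ring
  have h9 : Y ^ (-(ρ / (2 * (W : ℝ)))) ≤ Y ^ (-ρ') := Real.rpow_le_rpow_of_exponent_le hY1 (by linarith)
  have h10 : (Fintype.card σ : ℝ) * (X : ℝ) ^ (-ρ) ≤ Y ^ (-ρ') := by
    calc (Fintype.card σ : ℝ) * (X : ℝ) ^ (-ρ) ≤ Fintype.card σ * (2 ^ ρ * Y ^ (-(ρ / W))) :=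
          mul_le_mul_of_nonneg_left h7 (Nat.cast_nonneg _)
      _ = Y ^ (-(ρ / W)) * (2 ^ ρ * (Fintype.card σ : ℝ)) := by ring
      _ ≤ Y ^ (-(ρ / W)) * Y ^ (ρ / (2 * W)) := mul_le_mul_of_nonneg_left a2 (by positivity)
      _ = _ := h8
      _ ≤ _ := h9
  calc (Fintype.card σ : ℝ) * (L * (X : ℝ) ^ (-ρ)) = (Fintype.card σ * (X : ℝ) ^ (-ρ)) * L := by ring
    _ ≤ _ := mul_le_mul_of_nonneg_right h10 hL0

end Pool.Agent.T3h87.SS
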