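import Pool.Agent.R939.EI.Sec3
import Pool.Agent.T3h87.SS.Pro

/-!
# The sieve for sparse families: elliptic surfaces with several bad fibres and with a section of infinite order
-/

set_option autoImplicit false

namespace Pool.Agent.T3h87.SS

open Polynomial NumberField
open Pool.Agent.T3h87.LT (Fam Kind)
open Pool.Agent.N140.RO (vec)
open Pool.Agent.N140.RO.Two2 (Big)
open Pool.Agent.R939.EI Pool.Agent.TH115.GD

/-- the vectors with an obstruction after a homomorphism to a field which is good -/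
def EvP (E : Type) [Field E] [NumberField E] {I : Type} (Obs : (κ : Type) → [Field κ] → (I → κ) → Prop) (P : Ideal (𝓞 E)) :
    Set (I → 𝓞 E ⧸ P) :=
  {z | ∃ (κ : Type) (_ : Field κ) (ψ : 𝓞 E ⧸ P →+* κ), GoodPlace E (ψ.comp (Ideal.Quotient.mk P)) ∧ Obs κ fun i => ψ (z i)}

lemma big_bot {E : Type} [Field E] [NumberField E] {B : ℕ} {c₀ : 𝓞 E} {P : Ideal (𝓞 E)} (hP : P ∈ Big E B c₀) : P ≠ ⊥ := by
  obtain ⟨⟨hmax, hfin, -, -⟩, -⟩ := hP
  rintro rfl
  have h1 : Finite (𝓞 E) := Finite.of_injective (Ideal.Quotient.mk (⊥ : Ideal (𝓞 E))) (by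
    intro x y h
    rw [Ideal.Quotient.eq, Ideal.mem_bot] at h
    exact sub_eq_zero.1 h)
  have h2 : Infinite (𝓞 E) := Infinite.of_injective (fun n : ℕ => (n : 𝓞 E)) Nat.cast_injective
  exact not_finite (𝓞 E)

theorem card_EvP {E : Type} [Field E] [NumberField E] {I : Type} [Fintype I] (Obs : (κ : Type) → [Field κ] → (I → κ) → Prop) {δ : ℝ}
    (hc : ∀ (κ : Type) [Field κ] [Fintype κ], ringChar κ ≠ 2 → 7 ≤ Fintype.card κ →
      δ * (Fintype.card κ : ℝ) ^ Fintype.card I ≤ ({z : I → κ | Obs κ z}.ncard : ℝ))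
    {c₀ : 𝓞 E} (P : Ideal (𝓞 E)) (hP : P ∈ Big E 7 c₀) :
    δ * (Nat.card (𝓞 E ⧸ P) : ℝ) ^ Fintype.card I ≤ ((EvP E Obs P).ncard : ℝ) := by
  classical
  have hbot := big_bot hP
  obtain ⟨⟨hmax, hfin, h7, h2⟩, -⟩ := hP
  obtain ⟨κ, hκ, π, hgood, hsurj, hker, hfin'⟩ := exists_good E hmax hbot
  have hfκ := hfin' hfin
  have : Fintype κ := Fintype.ofFinite _
  obtain ⟨ψ, hψ⟩ : ∃ ψ : 𝓞 E ⧸ P →+* κ, ψ = Ideal.Quotient.lift P π hker := ⟨_, rfl⟩
  have hψc : ψ.comp (Ideal.Quotient.mk P) = π := by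
    rw [hψ]
    exact Ideal.Quotient.lift_comp_mk P π hker
  have hψs : Function.Surjective ψ := by
    intro y
    obtain ⟨x, rfl⟩ := hsurj y
    exact ⟨Ideal.Quotient.mk P x, by rw [← RingHom.comp_apply, hψc]⟩
  have hψi : Function.Injective ψ := by
    let fld : Field (𝓞 E ⧸ P) := Ideal.Quotient.field P
    exact ψ.injective
  let e : 𝓞 E ⧸ P ≃ κ := Equiv.ofBijective ψ ⟨hψi, hψs⟩
  have hcard : Nat.card (𝓞 E ⧸ P) = Fintype.card κ := by rw [Nat.card_congr e, Nat.card_eq_fintype_card]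
  have hchar : ringChar κ ≠ 2 := by
    intro h
    have h4 : ((ringChar κ : ℕ) : κ) = 0 := CharP.cast_eq_zero _ _
    rw [h] at h4
    apply h2
    rw [← Ideal.Quotient.eq_zero_iff_mem]
    apply hψi
    rw [map_zero, map_ofNat, map_ofNat]
    exact_mod_cast h4
  have h3 := hc κ hchar (by rw [← hcard]; exact h7)
  have h4 : {z : I → κ | Obs κ z}.ncard ≤ (EvP E Obs P).ncard := by
    refine Set.ncard_le_ncard_of_injOn (fun z i => e.symm (z i)) ?_ ?_ (Set.toFinite _)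
    · intro z hz
      refine ⟨κ, hκ, ψ, by rw [hψc]; exact hgood, ?_⟩
      have h5 : (fun i => ψ (e.symm (z i))) = z := funext fun i => e.apply_symm_apply (z i)
      beta_reduce
      rw [h5]
      exact hz
    · intro z _ z' _ h
      funext i
      exact e.symm.injective (congrFun h i)
  rw [hcard]
  exact h3.trans (by exact_mod_cast h4)

section
variable {r s : ℕ} {m : Fin s → ℕ}

/-- the pairs of an index set and a set `U` which are tested -/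
abbrev Sg (s : ℕ) : Type := {S : Finset (Fin s) // S ≠ ∅ ∧ S ≠ Finset.univ} ⊕
  {p : Finset (Fin s) × Finset (Fin s) // ∃ i ∈ p.1, ∃ j ∉ p.1, (i ∈ p.2 ↔ j ∈ p.2)}

/-- the local obstructions -/
def ObsX (r : ℕ) {s : ℕ} (m : Fin s → ℕ) (x : Sg s) (κ : Type) [Field κ] (z : IdxG r m → κ) : Prop :=
  (∃ S, x = Sum.inl S ∧ ObsG S.1 (fun j => z (Sum.inl j)) (fun i j => z (Sum.inr ⟨i, j⟩))) ∨
  (∃ p, x = Sum.inr p ∧ ObsAt (polT p.1.2 (fun j => z (Sum.inl j)) (fun i j => z (Sum.inr ⟨i, j⟩)))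
          (secP p.1.1 fun i j => z (Sum.inr ⟨i, j⟩)))

/-- the tests -/
def EvS (E : Type) [Field E] [NumberField E] (r : ℕ) {s : ℕ} (m : Fin s → ℕ) (x : Sg s) (P : Ideal (𝓞 E)) :
    Set (IdxG r m → 𝓞 E ⧸ P) :=
  EvP E (ObsX r m x) P

theorem card_ObsX (hr : 2 ≤ r) (hm : ∀ i, 1 ≤ m i) (x : Sg s) (κ : Type) [Field κ] [Fintype κ] (hF : ringChar κ ≠ 2)
    (h7 : 7 ≤ Fintype.card κ) :
    (1 / (4 * 9 ^ s * ((4 * r + 2 * ∑ i, m i : ℕ) : ℝ) ^ 2)) * (Fintype.card κ : ℝ) ^ Fintype.card (IdxG r m) ≤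
      ({z : IdxG r m → κ | ObsX r m x κ z}.ncard : ℝ) := by
  classical
  rcases x with ⟨S, h0, h1⟩ | ⟨⟨S, U⟩, i, hi, j, hj, hU⟩
  · have h3 := card_obsFun (κ := κ) hF h7 r m hr hm h0 h1
    have h4 : (Fintype.card (IdxG r m → κ) : ℝ) = (Fintype.card κ : ℝ) ^ Fintype.card (IdxG r m) := by
      rw [Fintype.card_fun, Nat.cast_pow]
    have h5 : ({z : IdxG r m → κ | ObsG S (fun j => z (Sum.inl j)) (fun i j => z (Sum.inr ⟨i, j⟩))}.ncard : ℝ) ≤
        ({z : IdxG r m → κ | ObsX r m (Sum.inl ⟨S, h0, h1⟩) κ z}.ncard : ℝ) := by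
      have h6 : {z : IdxG r m → κ | ObsG S (fun j => z (Sum.inl j)) (fun i j => z (Sum.inr ⟨i, j⟩))} ⊆
          {z : IdxG r m → κ | ObsX r m (Sum.inl ⟨S, h0, h1⟩) κ z} := fun z hz => Or.inl ⟨⟨S, h0, h1⟩, rfl, hz⟩
      exact_mod_cast Set.ncard_le_ncard h6 (Set.toFinite _)
    have h6 : (1 / (4 * 9 ^ s * ((4 * r + 2 * ∑ i, m i : ℕ) : ℝ) ^ 2)) ≤ (1 / (4 * 9 ^ s * ((2 * r + ∑ i, m i : ℕ) : ℝ) ^ 2)) := by
      have hM0 : (0 : ℝ) < ((2 * r + ∑ i, m i : ℕ) : ℝ) := by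
        have : 0 < 2 * r + ∑ i, m i := by omega
        exact_mod_cast this
      apply one_div_le_one_div_of_le (by positivity)
      apply mul_le_mul_of_nonneg_left _ (by positivity)
      apply pow_le_pow_left₀ hM0.le
      have : 2 * r + ∑ i, m i ≤ 4 * r + 2 * ∑ i, m i := by omega
      exact_mod_cast this
    have h7 : (0 : ℝ) ≤ (Fintype.card κ : ℝ) ^ Fintype.card (IdxG r m) := by positivity
    have h8 := mul_le_mul_of_nonneg_right h6 h7
    have h9 : (1 / (4 * 9 ^ s * ((2 * r + ∑ i, m i : ℕ) : ℝ) ^ 2)) * (Fintype.card κ : ℝ) ^ Fintype.card (IdxG r m) ≤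
        ({z : IdxG r m → κ | ObsG S (fun j => z (Sum.inl j)) (fun i j => z (Sum.inr ⟨i, j⟩))}.ncard : ℝ) := by
      rw [← h4]
      convert h3
    exact h8.trans (h9.trans h5)
  · have h3 := card_obsFunU (κ := κ) hF h7 r m hr hm hi hj hU
    have h4 : (Fintype.card (IdxG r m → κ) : ℝ) = (Fintype.card κ : ℝ) ^ Fintype.card (IdxG r m) := by
      rw [Fintype.card_fun, Nat.cast_pow]
    have h5 : ({z : IdxG r m → κ | ObsAt (polT U (fun j => z (Sum.inl j)) (fun i j => z (Sum.inr ⟨i, j⟩)))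
          (secP S fun i j => z (Sum.inr ⟨i, j⟩))}.ncard : ℝ) ≤
        ({z : IdxG r m → κ | ObsX r m (Sum.inr ⟨⟨S, U⟩, i, hi, j, hj, hU⟩) κ z}.ncard : ℝ) := by
      have h6 : {z : IdxG r m → κ | ObsAt (polT U (fun j => z (Sum.inl j)) (fun i j => z (Sum.inr ⟨i, j⟩)))
          (secP S fun i j => z (Sum.inr ⟨i, j⟩))} ⊆
          {z : IdxG r m → κ | ObsX r m (Sum.inr ⟨⟨S, U⟩, i, hi, j, hj, hU⟩) κ z} :=
        fun z hz => Or.inr ⟨⟨⟨S, U⟩, i, hi, j, hj, hU⟩, rfl, hz⟩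
      exact_mod_cast Set.ncard_le_ncard h6 (Set.toFinite _)
    refine le_trans ?_ h5
    rw [← h4]
    convert h3

theorem card_EvS {E : Type} [Field E] [NumberField E] (hr : 2 ≤ r) (hm : ∀ i, 1 ≤ m i) {c₀ : 𝓞 E} (x : Sg s) (P : Ideal (𝓞 E))
    (hP : P ∈ Big E 7 c₀) :
    (1 / (4 * 9 ^ s * ((4 * r + 2 * ∑ i, m i : ℕ) : ℝ) ^ 2)) * (Nat.card (𝓞 E ⧸ P) : ℝ) ^ Fintype.card (IdxG r m) ≤
      ((EvS E r m x P).ncard : ℝ) :=
  card_EvP (ObsX r m x) (fun κ _ _ hF h7 => card_ObsX hr hm x κ hF h7) P hP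

/-- The conclusion for the family without section. -/
def GoodA (E : Type) [Field E] (g : Fin (r + 1) → E) (β : (i : Fin s) → Fin (m i + 1) → E) : Prop :=
  (∀ i, Irreducible (polA (β i))) → Irreducible (polE g β) → NotNorm (polP β) → NotNorm (polE g β) →
    ∀ (k' K F : Type) [Field k'] [Algebra E k'] [Field K] [Algebra E[X] K] [Field F] [Algebra k'[X] F] [IsFractionRing k'[X] F]
      [Algebra K F], IsTower E k' K F → TateTC k' K F (polA g) (polP β)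

/-- The conclusion for the family with a section. -/
def GoodB (E : Type) [Field E] (U : Finset (Fin s)) (g : Fin (r + 1) → E) (β : (i : Fin s) → Fin (m i + 1) → E) : Prop :=
  (∀ i, Irreducible (polA (β i))) → Irreducible (polT U g β) → NotNorm (polP β) → NotNorm (polT U g β) →
    ∀ (k' K F : Type) [Field k'] [Algebra E k'] [Field K] [Algebra E[X] K] [Field F] [Algebra k'[X] F] [IsFractionRing k'[X] F]
      [Algebra K F], IsTower E k' K F → TateC k' K F (polS U g β) (polP β)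

lemma obsAt_of_obsG {R : Type} [CommRing R] {S : Finset (Fin s)} {a : Fin (r + 1) → R} {β : (i : Fin s) → Fin (m i + 1) → R}
    (h : ObsG S a β) : ObsAt (polE a β) (secP S β) := by
  obtain ⟨e, e', h1, h2, h3⟩ := h
  refine ⟨e, e', h1, h2, ?_⟩
  rw [secP, eval_prod, eval_prod]
  exact h3

/-- what the tests imply -/
def NoSplit (E : Type) [Field E] [NumberField E] (z : IdxG r m → 𝓞 E) : Prop :=
  (∀ S : Finset (Fin s), S ≠ ∅ → S ≠ Finset.univ → ∀ ε : E, ε ≠ 0 →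
    ¬ Splits ((polE (fun j => z (Sum.inl j)) fun i j => z (Sum.inr ⟨i, j⟩)).map (algebraMap (𝓞 E) E)) ε
      ((secP S fun i j => z (Sum.inr ⟨i, j⟩)).map (algebraMap (𝓞 E) E))) ∧
  (∀ S U : Finset (Fin s), (∃ i ∈ S, ∃ j ∉ S, (i ∈ U ↔ j ∈ U)) → ∀ ε : E, ε ≠ 0 →
    ¬ Splits ((polT U (fun j => z (Sum.inl j)) fun i j => z (Sum.inr ⟨i, j⟩)).map (algebraMap (𝓞 E) E)) ε
      ((secP S fun i j => z (Sum.inr ⟨i, j⟩)).map (algebraMap (𝓞 E) E)))

theorem noSplit_of_tests {E : Type} [Field E] [NumberField E] {c₀ : 𝓞 E} (z : IdxG r m → 𝓞 E)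
    (h : ∀ x : Sg s, ∃ P ∈ Big E 7 c₀, (fun i => Ideal.Quotient.mk P (z i)) ∈ EvS E r m x P) : NoSplit E z := by
  classical
  refine ⟨fun S h0 h1 ε hε hs => ?_, fun S U hS ε hε hs => ?_⟩
  · obtain ⟨P, hP, κ, hκ, ψ, hgood, hO⟩ := h (Sum.inl ⟨S, h0, h1⟩)
    refine hgood (polE (fun j => z (Sum.inl j)) fun i j => z (Sum.inr ⟨i, j⟩)) (secP S fun i j => z (Sum.inr ⟨i, j⟩)) ?_ ε hε hs
    rw [polE_map, secP_map]
    rcases hO with ⟨S', e, hO⟩ | ⟨p, e, hO⟩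
    · have e2 := Sum.inl_injective e
      subst e2
      exact obsAt_of_obsG hO
    · exact absurd e (by simp)
  · obtain ⟨P, hP, κ, hκ, ψ, hgood, hO⟩ := h (Sum.inr ⟨(S, U), hS⟩)
    refine hgood (polT U (fun j => z (Sum.inl j)) fun i j => z (Sum.inr ⟨i, j⟩)) (secP S fun i j => z (Sum.inr ⟨i, j⟩)) ?_ ε hε hs
    rw [polT_map, secP_map]
    rcases hO with ⟨S', e, hO⟩ | ⟨p, e, hO⟩
    · exact absurd e (by simp)
    · have e2 := Sum.inr_injective e
      subst e2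
      exact hO

theorem good_of_noSplit {E : Type} [Field E] [NumberField E] (z : IdxG r m → 𝓞 E) (h : NoSplit E z) :
    GoodA E (fun j => algebraMap (𝓞 E) E (z (Sum.inl j))) (fun i j => algebraMap (𝓞 E) E (z (Sum.inr ⟨i, j⟩))) ∧
    ∀ U, GoodB E U (fun j => algebraMap (𝓞 E) E (z (Sum.inl j))) (fun i j => algebraMap (𝓞 E) E (z (Sum.inr ⟨i, j⟩))) := by
  classical
  refine ⟨?_, fun U => ?_⟩
  · intro hq hirr hNb hNd k' K F _ _ _ _ _ _ _ _ hT D h' hD hodd hi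
    refine family_gen hT two_ne_zero hq hirr hNb hNd ?_ hD hodd ?_
    · intro S h0 h1 ε hε hs
      refine h.1 S h0 h1 ε hε ?_
      rw [polE_map, secP_map]
      exact hs
    · intro π hπ hdv
      have h3 := hi π hπ hdv
      exact ⟨h3, h3.separable⟩
  · intro hq hirr hNb hNd k' K F _ _ _ _ _ _ _ _ hT h' hodd hi
    refine family_sec hT two_ne_zero hq (U := U) (G := polA fun j => algebraMap (𝓞 E) E (z (Sum.inl j)))
      hirr hNb hNd ?_ hodd ?_
    · intro S hS ε hε hs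
      refine h.2 S U hS ε hε ?_
      rw [polT_map, secP_map]
      exact hs
    · intro π hπ hdv
      have h3 := hi π hπ hdv
      exact ⟨h3, h3.separable⟩

theorem good_of_tests {E : Type} [Field E] [NumberField E] {c₀ : 𝓞 E} (z : IdxG r m → 𝓞 E)
    (h : ∀ x : Sg s, ∃ P ∈ Big E 7 c₀, (fun i => Ideal.Quotient.mk P (z i)) ∈ EvS E r m x P) :
    GoodA E (fun j => algebraMap (𝓞 E) E (z (Sum.inl j))) (fun i j => algebraMap (𝓞 E) E (z (Sum.inr ⟨i, j⟩))) ∧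
    ∀ U, GoodB E U (fun j => algebraMap (𝓞 E) E (z (Sum.inl j))) (fun i j => algebraMap (𝓞 E) E (z (Sum.inr ⟨i, j⟩))) :=
  good_of_noSplit z (noSplit_of_tests z h)

end

end Pool.Agent.T3h87.SS
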