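import Pool.Agent.T3h87.SS.Rare
import Pool.Agent.T3h87.SS.Supply

/-!
# The sieve for sparse families: tests at the primes with an embedding of a number field in the `P`-adic numbers
-/

set_option autoImplicit false

namespace Pool.Agent.T3h87.SS

open Finset Filter
open Pool.Agent.T3h87.LT (Fam Kind)

/-- The test is passed by a positive proportion of the vectors modulo all large primes congruent to one modulo `R`. -/
def Freq (R N : ℕ) (T : ∀ (F : Type) [Field F], (Fin N → F) → Prop) : Prop :=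
  ∃ K₀ N₀ : ℕ, ∀ (l : ℕ) [Fact l.Prime], R ∣ l - 1 → N₀ ≤ l → l ^ N ≤ K₀ * {v : Fin N → ZMod l | T (ZMod l) v}.ncard

theorem rare_tests {N : ℕ} (F : Fin N → ℤ → Set Fam) (hF : ∀ l, Kind (F l)) :
    ∃ (e : ℕ) (ρ : ℝ), 0 < ρ ∧ ∀ κ : Fin N → ℤ, (∀ l, κ l ≠ 0) → ∀ (k : Type) [Field k] [NumberField k] (R : ℕ), 0 < R →
      ∀ (σ : Type) (_ : Finite σ) (T : σ → ∀ (F : Type) [Field F], (Fin N → F) → Prop), (∀ s, Freq R N (T s)) →
    ∃ Y₀ : ℝ, 1 ≤ Y₀ ∧ ∀ Bad : (Fin N → ℤ) → Prop,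
      (∀ v, (∀ s, ∃ (P : ℕ) (_ : Fact P.Prime), Nonempty (k →+* ℚ_[P]) ∧ T s (ZMod P) fun i => (v i : ZMod P)) → ¬ Bad v) →
      ∀ Y : ℝ, Y₀ ≤ Y → ∀ f : Fin N → Fam, (∀ l, f l ∈ F l (κ l)) → (∀ l, Y ≤ (f l).size) →
      probability f Bad ≤ Y ^ (-ρ) * ∑ l, (1 + |Real.log (f l).size|) ^ e := by
  classical
  obtain ⟨e, ρ, hρ, H⟩ := rare_sieve F hF
  refine ⟨e, ρ, hρ, fun κ hκ k _ _ R hR σ hσ T hT => ?_⟩
  have : Fintype σ := Fintype.ofFinite σ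
  choose K₁ N₁ h1 using hT
  obtain ⟨Ks, hKs⟩ : ∃ Ks, Ks = (∑ s, K₁ s) + 1 := ⟨_, rfl⟩
  obtain ⟨Ns, hNs⟩ : ∃ Ns, Ns = ∑ s, N₁ s := ⟨_, rfl⟩
  have hK : ∀ s, K₁ s ≤ Ks := fun s => by
    rw [hKs]
    exact (single_le_sum (f := K₁) (fun _ _ => Nat.zero_le _) (mem_univ s)).trans (Nat.le_succ _)
  have hN : ∀ s, N₁ s ≤ Ns := fun s => by
    rw [hNs]
    exact single_le_sum (f := N₁) (fun _ _ => Nat.zero_le _) (mem_univ s)
  have hK0 : (0 : ℝ) < Ks := by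
    rw [hKs]
    positivity
  obtain ⟨Y₀, hY₀, J⟩ := H κ hκ σ hσ (fun _ => {P : ℕ | ∃ _ : Fact P.Prime, Nonempty (k →+* ℚ_[P]) ∧ R ∣ P - 1})
    (fun _ => dense_emb k hR) (1 / Ks) (by positivity) Ns
  refine ⟨Y₀, hY₀, fun Bad hBad Y hY f hf hsz => ?_⟩
  refine J (fun s l => {u | ∃ _ : Fact l.Prime, T s (ZMod l) u}) ∅ Bad Y hY ?_ (fun s l hl hlU hl0 _ => ?_) (fun v hv => ?_) f hf hsz
  · rw [card_empty, Nat.cast_zero]
    have : (0 : ℝ) < Y := by linarith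
    positivity
  · obtain ⟨hF', -, hRl⟩ := hlU
    have h2 := h1 s l hRl ((hN s).trans hl0)
    have e1 : {u : Fin N → ZMod l | ∃ _ : Fact l.Prime, T s (ZMod l) u} = {v : Fin N → ZMod l | T s (ZMod l) v} := by
      ext u
      exact ⟨fun ⟨_, h⟩ => h, fun h => ⟨hF', h⟩⟩
    rw [e1, Fintype.card_fin, one_div, inv_mul_le_iff₀ hK0]
    have h3 : l ^ N ≤ Ks * {v : Fin N → ZMod l | T s (ZMod l) v}.ncard := h2.trans (Nat.mul_le_mul_right _ (hK s))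
    exact_mod_cast h3
  · refine hBad v fun s => ?_
    obtain ⟨l, -, ⟨hF', hσ', -⟩, -, -, ⟨hF'', hT'⟩⟩ := hv s
    exact ⟨l, hF', hσ', hT'⟩

end Pool.Agent.T3h87.SS
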